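import Mathlib

/-!
Part A of the O(log n) labelling of graphs of linear neighbourhood complexity:
traces, the number of children of a class and the two monotone functionals.
-/

set_option autoImplicit false

namespace Pool.Agent.ILab

open Finset

variable {V : Type*} [Fintype V] [DecidableEq V] (G : SimpleGraph V) [DecidableRel G.Adj]

/-- The trace of the vertex `v` on the set `X`. -/
def tr (X : Finset V) (v : V) : Finset V := X.filter (fun x => G.Adj v x)

/-- All traces on `X`. -/
def tcs (X : Finset V) : Finset (Finset V) := univ.image (tr G X)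

/-- The class of the trace `τ` on `X`. -/
def cls (X τ : Finset V) : Finset V := univ.filter (fun v => tr G X v = τ)

/-- The number of traces on `Y` of the vertices of `S`. -/
def nch (Y S : Finset V) : ℕ := (S.image (tr G Y)).card

theorem mem_tr {X : Finset V} {v x : V} : x ∈ tr G X v ↔ x ∈ X ∧ G.Adj v x := by
  simp [tr]

theorem tr_eq_iff {X : Finset V} {v w : V} :
    tr G X v = tr G X w ↔ ∀ x ∈ X, (G.Adj v x ↔ G.Adj w x) := by
  constructor
  · intro h x hx
    have := congrArg (fun s => x ∈ s) h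
    simp only [mem_tr, hx, true_and, eq_iff_iff] at this
    exact this
  · intro h
    ext x
    rw [mem_tr, mem_tr]
    constructor
    · rintro ⟨h1, h2⟩; exact ⟨h1, (h x h1).1 h2⟩
    · rintro ⟨h1, h2⟩; exact ⟨h1, (h x h1).2 h2⟩

theorem tr_inter {X Y : Finset V} (h : X ⊆ Y) (v : V) : tr G Y v ∩ X = tr G X v := by
  ext x
  simp only [mem_inter, mem_tr]
  constructor
  · rintro ⟨⟨_, h2⟩, h3⟩; exact ⟨h3, h2⟩
  · rintro ⟨h1, h2⟩; exact ⟨⟨h h1, h2⟩, h1⟩

theorem tr_mono {X Y : Finset V} (h : X ⊆ Y) {v w : V} (hvw : tr G Y v = tr G Y w) :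
    tr G X v = tr G X w := by
  rw [← tr_inter G h v, ← tr_inter G h w, hvw]

theorem mem_cls {X τ : Finset V} {v : V} : v ∈ cls G X τ ↔ tr G X v = τ := by
  simp [cls]

theorem mem_tcs {X τ : Finset V} : τ ∈ tcs G X ↔ ∃ v, tr G X v = τ := by
  simp [tcs]

theorem tr_insert_iff {X : Finset V} {v x w : V} :
    tr G (insert v X) x = tr G (insert v X) w ↔
      tr G X x = tr G X w ∧ (G.Adj v x ↔ G.Adj v w) := by
  rw [tr_eq_iff, tr_eq_iff]
  simp only [mem_insert, forall_eq_or_imp]
  rw [G.adj_comm x v, G.adj_comm w v]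
  tauto

theorem nch_mono_right {Y Y' : Finset V} (h : Y ⊆ Y') (S : Finset V) :
    nch G Y S ≤ nch G Y' S := by
  unfold nch
  have : S.image (tr G Y) = (S.image (tr G Y')).image (fun s => s ∩ Y) := by
    rw [Finset.image_image]
    apply Finset.image_congr
    intro x _
    exact (tr_inter G h x).symm
  rw [this]
  exact Finset.card_image_le

theorem nch_mono_left {Y S T : Finset V} (h : S ⊆ T) : nch G Y S ≤ nch G Y T :=
  Finset.card_le_card (Finset.image_subset_image h)

theorem nch_union (Y S T : Finset V) : nch G Y (S ∪ T) ≤ nch G Y S + nch G Y T := by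
  unfold nch
  rw [Finset.image_union]
  exact Finset.card_union_le _ _

theorem nch_pos {Y S : Finset V} (h : S.Nonempty) : 1 ≤ nch G Y S := by
  unfold nch
  exact Finset.card_pos.2 (h.image _)

/-- The sum of the square roots of the numbers of children. -/
noncomputable def phi (X Y : Finset V) : ℝ :=
  ∑ τ ∈ tcs G X, √(nch G Y (cls G X τ) : ℝ)

/-- The number of classes of `X` which meet `Y`. -/
def met (X Y : Finset V) : ℕ := (Y.image (tr G X)).card

theorem phi_mono_right {X Y Y' : Finset V} (h : Y ⊆ Y') : phi G X Y ≤ phi G X Y' := by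
  unfold phi
  apply Finset.sum_le_sum
  intro τ _
  apply Real.sqrt_le_sqrt
  exact_mod_cast nch_mono_right G h _

theorem met_mono_right {X Y Y' : Finset V} (h : Y ⊆ Y') : met G X Y ≤ met G X Y' :=
  Finset.card_le_card (Finset.image_subset_image h)

theorem met_mono_left {X X' : Finset V} (h : X ⊆ X') (Y : Finset V) :
    met G X Y ≤ met G X' Y := by
  unfold met
  have : Y.image (tr G X) = (Y.image (tr G X')).image (fun s => s ∩ X) := by
    rw [Finset.image_image]
    apply Finset.image_congr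
    intro x _
    exact (tr_inter G h x).symm
  rw [this]
  exact Finset.card_image_le

theorem met_insert {X Y : Finset V} {v : V} (h : ∀ x ∈ Y, tr G X x ≠ tr G X v) :
    met G X (insert v Y) = met G X Y + 1 := by
  unfold met
  rw [Finset.image_insert, Finset.card_insert_of_notMem]
  intro hv
  obtain ⟨x, hx, hxv⟩ := Finset.mem_image.1 hv
  exact h x hx hxv

theorem met_le (X Y : Finset V) : met G X Y ≤ (tcs G X).card :=
  Finset.card_le_card (Finset.image_subset_image (Finset.subset_univ Y))

theorem sum_nch_le {X Y : Finset V} (h : X ⊆ Y) :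
    ∑ τ ∈ tcs G X, nch G Y (cls G X τ) ≤ (tcs G Y).card := by
  have hmaps : ∀ σ ∈ tcs G Y, σ ∩ X ∈ tcs G X := by
    intro σ hσ
    obtain ⟨v, rfl⟩ := (mem_tcs G).1 hσ
    exact (mem_tcs G).2 ⟨v, (tr_inter G h v).symm⟩
  rw [Finset.card_eq_sum_card_fiberwise hmaps]
  apply Finset.sum_le_sum
  intro τ _
  apply Finset.card_le_card
  intro σ hσ
  obtain ⟨v, hv, rfl⟩ := Finset.mem_image.1 hσ
  rw [mem_cls] at hv
  rw [Finset.mem_filter]
  exact ⟨(mem_tcs G).2 ⟨v, rfl⟩, by rw [tr_inter G h v, hv]⟩

theorem phi_le {X Y : Finset V} (h : X ⊆ Y) : phi G X Y ≤ (tcs G Y).card := by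
  calc phi G X Y ≤ ∑ τ ∈ tcs G X, (nch G Y (cls G X τ) : ℝ) := by
        unfold phi
        apply Finset.sum_le_sum
        intro τ _
        rcases Nat.eq_zero_or_pos (nch G Y (cls G X τ)) with h0 | h0
        · rw [h0]; simp
        · have h1 : (1 : ℝ) ≤ nch G Y (cls G X τ) := by exact_mod_cast h0
          rw [Real.sqrt_le_left (by linarith)]
          nlinarith
    _ ≤ (tcs G Y).card := by exact_mod_cast sum_nch_le G h

theorem phi_nonneg (X Y : Finset V) : 0 ≤ phi G X Y :=
  Finset.sum_nonneg fun _ _ => Real.sqrt_nonneg _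

/-- The neighbours of `v` in the class `τ` of `X`. -/
def ka (X : Finset V) (v : V) (τ : Finset V) : Finset V :=
  (cls G X τ).filter (fun x => G.Adj v x)

/-- The non-neighbours of `v` in the class `τ` of `X`. -/
def kb (X : Finset V) (v : V) (τ : Finset V) : Finset V :=
  (cls G X τ).filter (fun x => ¬ G.Adj v x)

theorem ka_union_kb (X : Finset V) (v : V) (τ : Finset V) :
    ka G X v τ ∪ kb G X v τ = cls G X τ := Finset.filter_union_filter_not_eq _ _

/-- The gain in the square root functional when `v` is added. -/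
noncomputable def gain (X Y : Finset V) (v : V) (τ : Finset V) : ℝ :=
  √(nch G Y (ka G X v τ) : ℝ) + √(nch G Y (kb G X v τ) : ℝ) - √(nch G Y (cls G X τ) : ℝ)

theorem nch_cls_le (X Y : Finset V) (v : V) (τ : Finset V) :
    nch G Y (cls G X τ) ≤ nch G Y (ka G X v τ) + nch G Y (kb G X v τ) := by
  rw [← ka_union_kb G X v τ]
  exact nch_union G Y _ _

theorem sqrt_aux {a b : ℝ} (ha : 0 ≤ a) (hb : 0 ≤ b) :
    √(min a b) / 2 ≤ √a + √b - √(a + b) := by
  wlog hab : a ≤ b generalizing a b
  · have := this hb ha (le_of_not_ge hab)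
    rw [min_comm, add_comm b a] at this
    linarith
  rw [min_eq_left hab]
  have h1 : √(a + b) ≤ √b + √a / 2 := by
    have hsa : √a * √a = a := Real.mul_self_sqrt ha
    have hsb : √b * √b = b := Real.mul_self_sqrt hb
    have hle : √a ≤ √b := Real.sqrt_le_sqrt hab
    have h0 : 0 ≤ √a := Real.sqrt_nonneg a
    rw [Real.sqrt_le_left (by positivity)]
    nlinarith
  linarith

theorem gain_ge (X Y : Finset V) (v : V) (τ : Finset V) :
    √((min (nch G Y (ka G X v τ)) (nch G Y (kb G X v τ)) : ℕ) : ℝ) / 2 ≤ gain G X Y v τ := by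
  unfold gain
  have h1 := sqrt_aux (a := (nch G Y (ka G X v τ) : ℝ)) (b := (nch G Y (kb G X v τ) : ℝ))
    (Nat.cast_nonneg _) (Nat.cast_nonneg _)
  have h2 : √(nch G Y (cls G X τ) : ℝ) ≤
      √((nch G Y (ka G X v τ) : ℝ) + (nch G Y (kb G X v τ) : ℝ)) := by
    apply Real.sqrt_le_sqrt
    exact_mod_cast nch_cls_le G X Y v τ
  push_cast
  linarith

theorem gain_nonneg (X Y : Finset V) (v : V) (τ : Finset V) : 0 ≤ gain G X Y v τ :=
  le_trans (by positivity) (gain_ge G X Y v τ)

theorem cls_insert {X : Finset V} {v w : V} :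
    cls G (insert v X) (tr G (insert v X) w) =
      (cls G X (tr G X w)).filter (fun x => G.Adj v x ↔ G.Adj v w) := by
  ext x
  rw [mem_cls, Finset.mem_filter, mem_cls, tr_insert_iff]

theorem phi_insert (X Y : Finset V) (v : V) :
    phi G X Y + ∑ τ ∈ tcs G X, gain G X Y v τ ≤ phi G (insert v X) Y := by
  have hsub : X ⊆ insert v X := Finset.subset_insert v X
  have hmaps : ∀ σ ∈ tcs G (insert v X), σ ∩ X ∈ tcs G X := by
    intro σ hσ
    obtain ⟨w, rfl⟩ := (mem_tcs G).1 hσ
    exact (mem_tcs G).2 ⟨w, (tr_inter G hsub w).symm⟩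
  unfold phi
  rw [← Finset.sum_add_distrib, ← Finset.sum_fiberwise_of_maps_to hmaps]
  apply Finset.sum_le_sum
  intro τ hτ
  have hval : √(nch G Y (cls G X τ) : ℝ) + gain G X Y v τ =
      √(nch G Y (ka G X v τ) : ℝ) + √(nch G Y (kb G X v τ) : ℝ) := by
    unfold gain; ring
  rw [hval]
  have hmem : ∀ w, tr G X w = τ → tr G (insert v X) w ∈
      (tcs G (insert v X)).filter (fun σ => σ ∩ X = τ) := by
    intro w hw
    rw [Finset.mem_filter]
    exact ⟨(mem_tcs G).2 ⟨w, rfl⟩, by rw [tr_inter G hsub w, hw]⟩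
  have hA : ∀ w, tr G X w = τ → G.Adj v w →
      cls G (insert v X) (tr G (insert v X) w) = ka G X v τ := by
    intro w hw hvw
    rw [cls_insert, hw]
    unfold ka
    apply Finset.filter_congr
    intro x _
    simp [hvw]
  have hB : ∀ w, tr G X w = τ → ¬ G.Adj v w →
      cls G (insert v X) (tr G (insert v X) w) = kb G X v τ := by
    intro w hw hvw
    rw [cls_insert, hw]
    unfold kb
    apply Finset.filter_congr
    intro x _
    simp [hvw]
  have hnn : ∀ σ ∈ (tcs G (insert v X)).filter (fun σ => σ ∩ X = τ),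
      (0 : ℝ) ≤ √(nch G Y (cls G (insert v X) σ) : ℝ) := fun _ _ => Real.sqrt_nonneg _
  rcases (ka G X v τ).eq_empty_or_nonempty with ha | ⟨w1, hw1⟩
  · rcases (kb G X v τ).eq_empty_or_nonempty with hb | ⟨w2, hw2⟩
    · rw [ha, hb]
      have : nch G Y (∅ : Finset V) = 0 := by simp [nch]
      rw [this]
      simp only [Nat.cast_zero, Real.sqrt_zero, add_zero]
      exact Finset.sum_nonneg hnn
    · rw [ha]
      have : nch G Y (∅ : Finset V) = 0 := by simp [nch]
      rw [this]
      simp only [Nat.cast_zero, Real.sqrt_zero, zero_add]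
      obtain ⟨h1, h2⟩ := Finset.mem_filter.1 hw2
      rw [mem_cls] at h1
      have h3 := Finset.single_le_sum hnn (hmem w2 h1)
      rw [hB w2 h1 h2] at h3
      exact h3
  · rcases (kb G X v τ).eq_empty_or_nonempty with hb | ⟨w2, hw2⟩
    · rw [hb]
      have : nch G Y (∅ : Finset V) = 0 := by simp [nch]
      rw [this]
      simp only [Nat.cast_zero, Real.sqrt_zero, add_zero]
      obtain ⟨h1, h2⟩ := Finset.mem_filter.1 hw1
      rw [mem_cls] at h1
      have h3 := Finset.single_le_sum hnn (hmem w1 h1)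
      rw [hA w1 h1 h2] at h3
      exact h3
    · obtain ⟨h1, h2⟩ := Finset.mem_filter.1 hw1
      rw [mem_cls] at h1
      obtain ⟨h3, h4⟩ := Finset.mem_filter.1 hw2
      rw [mem_cls] at h3
      have hne : tr G (insert v X) w1 ≠ tr G (insert v X) w2 := by
        intro h
        rw [tr_insert_iff] at h
        exact h4 (h.2.1 h2)
      have hsub2 : ({tr G (insert v X) w1, tr G (insert v X) w2} : Finset (Finset V)) ⊆
          (tcs G (insert v X)).filter (fun σ => σ ∩ X = τ) := by
        intro σ hσ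
        rcases Finset.mem_insert.1 hσ with rfl | hσ
        · exact hmem w1 h1
        · rw [Finset.mem_singleton.1 hσ]; exact hmem w2 h3
      have h5 := Finset.sum_le_sum_of_subset_of_nonneg hsub2 (fun σ hσ _ => hnn σ hσ)
      rw [Finset.sum_pair hne, hA w1 h1 h2, hB w2 h3 h4] at h5
      exact h5

theorem phi_mono_insert (X Y : Finset V) (v : V) : phi G X Y ≤ phi G (insert v X) Y := by
  have h1 := phi_insert G X Y v
  have h2 : 0 ≤ ∑ τ ∈ tcs G X, gain G X Y v τ :=
    Finset.sum_nonneg fun _ _ => gain_nonneg G X Y v _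
  linarith

end Pool.Agent.ILab
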