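import Mathlib
import Pool.Agent.ILab.Chain1

/-!
Part A of the O(log n) labelling of graphs of linear neighbourhood complexity:
the potential and the properties of its maximiser.
-/

set_option autoImplicit false

namespace Pool.Agent.ILab

open Finset

variable {V : Type*} [Fintype V] [DecidableEq V] (G : SimpleGraph V) [DecidableRel G.Adj]

/-- The gain of one level. -/
noncomputable def val (q : ℝ) (X Y : Finset V) : ℝ := q * phi G X Y + met G X Y

/-- The potential of a sequence of vertex sets. -/
noncomputable def pot (q lam : ℝ) (L : ℕ) (X : ℕ → Finset V) : ℝ :=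
  ∑ j ∈ range L, q ^ j * (val G q (X j) (X (j + 1)) - lam * ((X j).card : ℝ))

/-- Insert `v` in all sets from level `j` on. -/
def ins (v : V) (j : ℕ) (X : ℕ → Finset V) : ℕ → Finset V :=
  fun i => if j ≤ i then insert v (X i) else X i

/-- Increasing sequences from the empty set to the whole vertex set. -/
structure Valid (L : ℕ) (X : ℕ → Finset V) : Prop where
  mono : Monotone X
  zero : X 0 = ∅
  top : ∀ j, L ≤ j → X j = univ

theorem Valid.ins {L : ℕ} {X : ℕ → Finset V} (h : Valid L X) (v : V) {j : ℕ} (hj : 1 ≤ j) :
    Valid L (ins v j X) := by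
  refine ⟨?_, ?_, ?_⟩
  · intro i k hik
    unfold ILab.ins
    show (if j ≤ i then insert v (X i) else X i) ≤ (if j ≤ k then insert v (X k) else X k)
    split_ifs with h1 h2
    · exact Finset.insert_subset_insert _ (h.mono hik)
    · omega
    · exact (h.mono hik).trans (Finset.subset_insert _ _)
    · exact h.mono hik
  · unfold ILab.ins
    rw [if_neg (by omega)]
    exact h.zero
  · intro i hi
    unfold ILab.ins
    rw [h.top i hi]
    simp

theorem val_ins (q : ℝ) (hq : 0 ≤ q) (X : ℕ → Finset V) (v : V) (j i : ℕ) :
    val G q (X i) (X (i + 1)) ≤ val G q (ins v j X i) (ins v j X (i + 1)) := by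
  have h1 : X (i + 1) ⊆ ins v j X (i + 1) := by
    unfold ins
    split_ifs
    · exact Finset.subset_insert _ _
    · exact Finset.Subset.refl _
  have h2 : X i ⊆ ins v j X i := by
    unfold ins
    split_ifs
    · exact Finset.subset_insert _ _
    · exact Finset.Subset.refl _
  have h3 : phi G (X i) (X (i + 1)) ≤ phi G (ins v j X i) (ins v j X (i + 1)) := by
    refine (phi_mono_right G h1).trans ?_
    rcases Nat.lt_or_ge i j with h4 | h4
    · have : ins v j X i = X i := by unfold ins; rw [if_neg (by omega)]
      rw [this]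
    · have : ins v j X i = insert v (X i) := by unfold ins; rw [if_pos h4]
      rw [this]
      exact phi_mono_insert G _ _ v
  have h4 : met G (X i) (X (i + 1)) ≤ met G (ins v j X i) (ins v j X (i + 1)) :=
    (met_mono_right G h1).trans (met_mono_left G h2 _)
  have h5 : (met G (X i) (X (i + 1)) : ℝ) ≤ met G (ins v j X i) (ins v j X (i + 1)) := by
    exact_mod_cast h4
  unfold val
  have h6 := mul_le_mul_of_nonneg_left h3 hq
  linarith

theorem pot_ins (q lam : ℝ) (hq : 0 ≤ q) (hq1 : q < 1) (hlam : 0 ≤ lam) (L : ℕ)
    (X : ℕ → Finset V) (v : V) (j i0 : ℕ) (hi0 : i0 < L) :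
    pot G q lam L X + q ^ i0 * (val G q (ins v j X i0) (ins v j X (i0 + 1)) -
      val G q (X i0) (X (i0 + 1))) - lam * (q ^ j / (1 - q)) ≤ pot G q lam L (ins v j X) := by
  have hgeo : ∑ i ∈ range L, (if j ≤ i then q ^ i else 0) ≤ q ^ j / (1 - q) := by
    rw [← Finset.sum_filter]
    have : (range L).filter (fun i => j ≤ i) = Ico j L := by
      ext i; simp [Finset.mem_Ico, and_comm]
    rw [this]
    exact geom_sum_Ico_le_of_lt_one hq hq1
  have hnn : ∀ i ∈ range L, 0 ≤ q ^ i * (val G q (ins v j X i) (ins v j X (i + 1)) -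
      val G q (X i) (X (i + 1))) := by
    intro i _
    apply mul_nonneg (pow_nonneg hq _)
    have := val_ins G q hq X v j i
    linarith
  have hsingle := Finset.single_le_sum hnn (Finset.mem_range.2 hi0)
  have hcard : ∀ i, ((ins v j X i).card : ℝ) ≤ (X i).card + (if j ≤ i then 1 else 0) := by
    intro i
    unfold ins
    split_ifs
    · exact_mod_cast Finset.card_insert_le _ _
    · simp
  have hterm : ∀ i ∈ range L, q ^ i * (val G q (X i) (X (i + 1)) - lam * ((X i).card : ℝ)) +
      q ^ i * (val G q (ins v j X i) (ins v j X (i + 1)) - val G q (X i) (X (i + 1))) -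
      lam * (if j ≤ i then q ^ i else 0) ≤
      q ^ i * (val G q (ins v j X i) (ins v j X (i + 1)) - lam * ((ins v j X i).card : ℝ)) := by
    intro i _
    have h1 := hcard i
    have h2 := pow_nonneg hq i
    have h3 : q ^ i * (lam * ((ins v j X i).card : ℝ)) ≤
        q ^ i * (lam * ((X i).card + (if j ≤ i then 1 else 0))) :=
      mul_le_mul_of_nonneg_left (mul_le_mul_of_nonneg_left h1 hlam) h2
    split_ifs at h3 ⊢ with h4
    · nlinarith
    · nlinarith
  have hsum := Finset.sum_le_sum hterm
  rw [Finset.sum_sub_distrib, Finset.sum_add_distrib, ← Finset.mul_sum] at hsum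
  unfold pot
  have h7 := mul_le_mul_of_nonneg_left hgeo hlam
  linarith

theorem exists_max (L : ℕ) (hL : 1 ≤ L) (F : (ℕ → Finset V) → ℝ) :
    ∃ X : ℕ → Finset V, Valid L X ∧ ∀ Y : ℕ → Finset V, Valid L Y → F Y ≤ F X := by
  classical
  let ext : (Fin L → Finset V) → ℕ → Finset V := fun f i => if h : i < L then f ⟨i, h⟩ else univ
  have hne : ((univ : Finset (Fin L → Finset V)).filter (fun f => Valid L (ext f))).Nonempty := by
    refine ⟨fun _ => ∅, ?_⟩
    rw [Finset.mem_filter]
    refine ⟨Finset.mem_univ _, ?_, ?_, ?_⟩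
    · intro i k hik
      simp only [ext]
      rcases Nat.lt_or_ge i L with h1 | h1
      · rw [dif_pos h1]
        exact Finset.empty_subset _
      · rw [dif_neg (by omega), dif_neg (by omega)]
    · simp only [ext]
      rw [dif_pos (by omega)]
    · intro j hj
      simp only [ext]
      rw [dif_neg (by omega)]
  obtain ⟨f, hf, hmax⟩ := Finset.exists_max_image _ (fun f => F (ext f)) hne
  rw [Finset.mem_filter] at hf
  refine ⟨ext f, hf.2, ?_⟩
  intro Y hY
  have hYe : Y = ext (fun i => Y i.1) := by
    funext i
    simp only [ext]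
    split_ifs with h1
    · rfl
    · exact hY.top i (by omega)
  have := hmax (fun i => Y i.1) (by
    rw [Finset.mem_filter]
    exact ⟨Finset.mem_univ _, hYe ▸ hY⟩)
  rw [hYe]
  exact this

theorem exists_good (R : ℕ) (hR : 1 ≤ R)
    (hlin : ∀ X : Finset V, (tcs G X).card ≤ R * (X.card + 1))
    (L : ℕ) (hL1 : 1 ≤ L) (hn : Fintype.card V ≤ (7 * R) ^ L) :
    ∃ X : ℕ → Finset V, Valid L X ∧
      (∀ j < L, ∀ v, ∃ x ∈ X (j + 1), tr G (X j) x = tr G (X j) v) ∧
      (∀ j < L, 1 ≤ j → ∀ v,
        ∑ τ ∈ tcs G (X j), gain G (X j) (X (j + 1)) v τ ≤ 49 / 2 * (R : ℝ) ^ 2) ∧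
      (tcs G (X 1)).card ≤ 36 * R ^ 2 := by
  have hR1 : (1 : ℝ) ≤ R := by exact_mod_cast hR
  set q : ℝ := 1 / (7 * R) with hqdef
  set lam : ℝ := 3 * R with hlamdef
  have hq0 : 0 < q := by rw [hqdef]; positivity
  have hqR : q * R = 1 / 7 := by rw [hqdef]; field_simp
  have hq7 : q ≤ 1 / 7 := by nlinarith
  have hq1 : q < 1 := by linarith
  have hlam0 : 0 ≤ lam := by rw [hlamdef]; positivity
  have hinv : 1 / (1 - q) ≤ 7 / 6 := by
    rw [div_le_div_iff₀ (by linarith) (by norm_num)]
    linarith
  obtain ⟨X, hX, hmax⟩ := exists_max L hL1 (pot G q lam L)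
  refine ⟨X, hX, ?_, ?_, ?_⟩
  · intro j hj v
    by_contra hcon
    push Not at hcon
    have h1 := hmax _ (hX.ins v (j := j + 1) (by omega))
    have h2 := pot_ins G q lam hq0.le hq1 hlam0 L X v (j + 1) j hj
    have hXj : ins v (j + 1) X j = X j := by unfold ins; rw [if_neg (by omega)]
    have hXj1 : ins v (j + 1) X (j + 1) = insert v (X (j + 1)) := by
      unfold ins; rw [if_pos le_rfl]
    rw [hXj, hXj1] at h2
    have h3 : val G q (X j) (insert v (X (j + 1))) - val G q (X j) (X (j + 1)) ≥ 1 := by
      unfold val
      rw [met_insert G hcon]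
      have := mul_le_mul_of_nonneg_left
        (phi_mono_right G (X := X j) (Finset.subset_insert v (X (j + 1)))) hq0.le
      push_cast
      linarith
    have hqj : 0 < q ^ j := pow_pos hq0 j
    have h4 : lam * (q ^ (j + 1) / (1 - q)) ≤ q ^ j * (1 / 2) := by
      have : lam * (q ^ (j + 1) / (1 - q)) = q ^ j * (3 * (q * R) * (1 / (1 - q))) := by
        rw [hlamdef, pow_succ]; ring
      rw [this]
      apply mul_le_mul_of_nonneg_left _ hqj.le
      rw [hqR]
      linarith
    have h5 : q ^ j * 1 ≤ q ^ j * (val G q (X j) (insert v (X (j + 1))) -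
        val G q (X j) (X (j + 1))) := mul_le_mul_of_nonneg_left h3 hqj.le
    linarith
  · intro j hj hj1 v
    have h1 := hmax _ (hX.ins v (j := j) hj1)
    have h2 := pot_ins G q lam hq0.le hq1 hlam0 L X v j j hj
    have hXj : ins v j X j = insert v (X j) := by unfold ins; rw [if_pos le_rfl]
    have hXj1 : ins v j X (j + 1) = insert v (X (j + 1)) := by
      unfold ins; rw [if_pos (by omega)]
    rw [hXj, hXj1] at h2
    set g : ℝ := ∑ τ ∈ tcs G (X j), gain G (X j) (X (j + 1)) v τ with hg
    have h3 : val G q (insert v (X j)) (insert v (X (j + 1))) - val G q (X j) (X (j + 1)) ≥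
        q * g := by
      unfold val
      have e1 := phi_insert G (X j) (X (j + 1)) v
      have e2 := phi_mono_right G (X := insert v (X j)) (Finset.subset_insert v (X (j + 1)))
      have e3 : (met G (X j) (X (j + 1)) : ℝ) ≤ met G (insert v (X j)) (insert v (X (j + 1))) := by
        exact_mod_cast (met_mono_right G (X := X j) (Finset.subset_insert v (X (j + 1)))).trans
          (met_mono_left G (Finset.subset_insert v (X j)) _)
      have e4 := mul_le_mul_of_nonneg_left (e1.trans e2) hq0.le
      rw [← hg, mul_add] at e4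
      linarith
    have hqj : 0 < q ^ j := pow_pos hq0 j
    have h4 : q ^ j * (q * g) ≤ q ^ j * (val G q (insert v (X j)) (insert v (X (j + 1))) -
        val G q (X j) (X (j + 1))) := mul_le_mul_of_nonneg_left h3 hqj.le
    have h5 : q ^ j * (q * g) ≤ q ^ j * (lam * (1 / (1 - q))) := by
      have : lam * (q ^ j / (1 - q)) = q ^ j * (lam * (1 / (1 - q))) := by ring
      rw [← this]
      linarith
    have h6 : q * g ≤ lam * (1 / (1 - q)) := le_of_mul_le_mul_left h5 hqj
    have h7 : lam * (1 / (1 - q)) ≤ 3 * R * (7 / 6) := by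
      rw [hlamdef]
      exact mul_le_mul_of_nonneg_left hinv (by positivity)
    have h8 : q * g ≤ 7 / 2 * R := by linarith
    have h9 : (q * g) * (7 * R) ≤ 7 / 2 * R * (7 * R) :=
      mul_le_mul_of_nonneg_right h8 (by positivity)
    have h10 : (q * g) * (7 * R) = g := by
      have : (q * g) * (7 * R) = 7 * (q * R) * g := by ring
      rw [this, hqR]; ring
    rw [h10] at h9
    linarith
  · -- the size of the first level
    have htriv : 0 ≤ pot G q lam L X := by
      have hV0 : Valid (V := V) L (fun i => if i < L then ∅ else univ) := by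
        refine ⟨?_, ?_, ?_⟩
        · intro i k hik
          show (if i < L then (∅ : Finset V) else univ) ≤ (if k < L then ∅ else univ)
          split_ifs with h1 h2
          · exact le_rfl
          · exact Finset.empty_subset _
          · omega
          · exact le_rfl
        · show (if 0 < L then (∅ : Finset V) else univ) = ∅
          rw [if_pos (by omega)]
        · intro j hj
          show (if j < L then (∅ : Finset V) else univ) = univ
          rw [if_neg (by omega)]
      refine le_trans ?_ (hmax _ hV0)
      unfold pot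
      apply Finset.sum_nonneg
      intro i hi
      rw [Finset.mem_range] at hi
      apply mul_nonneg (pow_nonneg hq0.le _)
      show 0 ≤ val G q (if i < L then ∅ else univ) _ -
        lam * ((if i < L then (∅ : Finset V) else univ).card : ℝ)
      rw [if_pos hi]
      simp only [Finset.card_empty, Nat.cast_zero, mul_zero, sub_zero]
      unfold val
      have := phi_nonneg G (∅ : Finset V) (if i + 1 < L then ∅ else univ)
      positivity
    rcases Nat.lt_or_ge 1 L with hL2 | hL2
    · -- upper bound of the potential
      set t : ℕ → ℝ := fun i => q ^ i * ((tcs G (X i)).card : ℝ) with ht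
      have ht0 : ∀ i, 0 ≤ t i := fun i => mul_nonneg (pow_nonneg hq0.le _) (Nat.cast_nonneg _)
      have hup : pot G q lam L X ≤ ∑ i ∈ range L, (t (i + 1) + t i -
          q ^ i * (lam * ((X i).card : ℝ))) := by
        unfold pot
        apply Finset.sum_le_sum
        intro i _
        have e1 : phi G (X i) (X (i + 1)) ≤ (tcs G (X (i + 1))).card :=
          phi_le G (hX.mono (Nat.le_succ i))
        have e2 : (met G (X i) (X (i + 1)) : ℝ) ≤ (tcs G (X i)).card := by
          exact_mod_cast met_le G (X i) (X (i + 1))
        have e3 : val G q (X i) (X (i + 1)) ≤ q * (tcs G (X (i + 1))).card + (tcs G (X i)).card := by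
          unfold val
          have := mul_le_mul_of_nonneg_left e1 hq0.le
          linarith
        have e4 := mul_le_mul_of_nonneg_left e3 (pow_nonneg hq0.le i)
        simp only [ht]
        rw [pow_succ]
        nlinarith
      have hshift : ∑ i ∈ range L, t (i + 1) ≤ ∑ i ∈ range L, t i + t L := by
        have e1 := Finset.sum_range_succ t L
        have e2 := Finset.sum_range_succ' t L
        have e3 := ht0 0
        linarith
      have htL : t L ≤ 1 := by
        simp only [ht]
        have e1 : ((tcs G (X L)).card : ℝ) ≤ (7 * R) ^ L := by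
          have : (tcs G (X L)).card ≤ Fintype.card V := by
            unfold tcs
            exact Finset.card_image_le
          exact_mod_cast this.trans hn
        calc q ^ L * ((tcs G (X L)).card : ℝ) ≤ q ^ L * (7 * R) ^ L :=
              mul_le_mul_of_nonneg_left e1 (pow_nonneg hq0.le _)
          _ = 1 := by
              rw [← mul_pow, show q * (7 * R) = 1 by
                have : q * (7 * R) = 7 * (q * R) := by ring
                rw [this, hqR]; norm_num]
              exact one_pow L
      have hti : ∀ i, t i ≤ q ^ i * (R * ((X i).card : ℝ)) + R * q ^ i := by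
        intro i
        simp only [ht]
        have e1 : ((tcs G (X i)).card : ℝ) ≤ R * ((X i).card + 1) := by exact_mod_cast hlin (X i)
        have := mul_le_mul_of_nonneg_left e1 (pow_nonneg hq0.le i)
        linarith
      have hgeo : ∑ i ∈ range L, q ^ i ≤ 7 / 6 := by
        have e1 := geom_sum_Ico_le_of_lt_one (m := 0) (n := L) hq0.le hq1
        rw [← Finset.range_eq_Ico, pow_zero] at e1
        exact e1.trans hinv
      have hmain : 0 ≤ ∑ i ∈ range L, (2 * (R * q ^ i) - q ^ i * (R * ((X i).card : ℝ))) + 1 := by
        have e1 : ∑ i ∈ range L, (t (i + 1) + t i - q ^ i * (lam * ((X i).card : ℝ))) ≤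
            ∑ i ∈ range L, (2 * t i - q ^ i * (lam * ((X i).card : ℝ))) + 1 := by
          rw [Finset.sum_sub_distrib, Finset.sum_sub_distrib, Finset.sum_add_distrib,
            ← Finset.mul_sum]
          linarith
        have e2 : ∑ i ∈ range L, (2 * t i - q ^ i * (lam * ((X i).card : ℝ))) ≤
            ∑ i ∈ range L, (2 * (R * q ^ i) - q ^ i * (R * ((X i).card : ℝ))) := by
          apply Finset.sum_le_sum
          intro i _
          have := hti i
          rw [hlamdef]
          linarith
        linarith
      rw [Finset.sum_sub_distrib, ← Finset.mul_sum, ← Finset.mul_sum] at hmain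
      have hone : q ^ 1 * (R * ((X 1).card : ℝ)) ≤
          ∑ i ∈ range L, q ^ i * (R * ((X i).card : ℝ)) := by
        apply Finset.single_le_sum (f := fun i => q ^ i * (R * ((X i).card : ℝ)))
        · intro i _
          positivity
        · exact Finset.mem_range.2 hL2
      have h1 : q ^ 1 * (R * ((X 1).card : ℝ)) = (X 1).card / 7 := by
        rw [pow_one, ← mul_assoc, hqR]; ring
      rw [h1] at hone
      have h2 : (R : ℝ) * ∑ i ∈ range L, q ^ i ≤ R * (7 / 6) :=
        mul_le_mul_of_nonneg_left hgeo (by positivity)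
      have h3 : ((X 1).card : ℝ) ≤ 35 * R := by linarith
      have h4 : (X 1).card ≤ 35 * R := by exact_mod_cast h3
      calc (tcs G (X 1)).card ≤ R * ((X 1).card + 1) := hlin _
        _ ≤ R * (35 * R + 1) := Nat.mul_le_mul_left _ (by omega)
        _ ≤ 36 * R ^ 2 := by nlinarith
    · have hL : L = 1 := by omega
      subst hL
      calc (tcs G (X 1)).card ≤ Fintype.card V := by
            unfold tcs
            exact Finset.card_image_le
        _ ≤ (7 * R) ^ 1 := hn
        _ ≤ 36 * R ^ 2 := by nlinarith

end Pool.Agent.ILab
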