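import Mathlib
import Pool.Agent.ILab.Chain2

/-!
Part A of the O(log n) labelling of graphs of linear neighbourhood complexity:
the chain of partitions, with classes named by representatives.
-/

set_option autoImplicit false

namespace Pool.Agent.ILab

open Finset

theorem card_tcs_le {V : Type*} [Fintype V] [DecidableEq V] (G : SimpleGraph V)
    [DecidableRel G.Adj] (X : Finset V) :
    (tcs G X).card = (Set.range fun v => G.neighborSet v ∩ (X : Set V)).ncard := by
  classical
  have h1 : (Set.range fun v => G.neighborSet v ∩ (X : Set V)) =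
      (((tcs G X).image (fun s : Finset V => (s : Set V)) : Finset (Set V)) : Set (Set V)) := by
    ext s
    simp only [Set.mem_range, Finset.coe_image, Set.mem_image, Finset.mem_coe, mem_tcs]
    constructor
    · rintro ⟨v, rfl⟩
      refine ⟨tr G X v, ⟨v, rfl⟩, ?_⟩
      ext x
      simp [mem_tr, and_comm]
    · rintro ⟨_, ⟨v, rfl⟩, rfl⟩
      refine ⟨v, ?_⟩
      ext x
      simp [mem_tr, and_comm]
  rw [h1, Set.ncard_coe_finset, Finset.card_image_of_injective _ Finset.coe_injective]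

/-- Few classes are split. -/
theorem split_card {V : Type*} [Fintype V] [DecidableEq V] (G : SimpleGraph V)
    [DecidableRel G.Adj] (R : ℕ) (X Y : Finset V) (v : V)
    (h : ∑ τ ∈ tcs G X, gain G X Y v τ ≤ 49 / 2 * (R : ℝ) ^ 2) :
    ((tcs G X).filter (fun τ => (ka G X v τ).Nonempty ∧ (kb G X v τ).Nonempty)).card ≤
      49 * R ^ 2 := by
  set S := (tcs G X).filter (fun τ => (ka G X v τ).Nonempty ∧ (kb G X v τ).Nonempty) with hS
  have h1 : ∑ τ ∈ S, (1 / 2 : ℝ) ≤ ∑ τ ∈ tcs G X, gain G X Y v τ := by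
    refine le_trans (Finset.sum_le_sum (g := gain G X Y v) ?_)
      (Finset.sum_le_sum_of_subset_of_nonneg (Finset.filter_subset _ _)
        (fun τ _ _ => gain_nonneg G X Y v τ))
    intro τ hτ
    rw [hS, Finset.mem_filter] at hτ
    refine le_trans ?_ (gain_ge G X Y v τ)
    have h2 : 1 ≤ min (nch G Y (ka G X v τ)) (nch G Y (kb G X v τ)) :=
      le_min (nch_pos G hτ.2.1) (nch_pos G hτ.2.2)
    have h3 : (1 : ℝ) ≤ √((min (nch G Y (ka G X v τ)) (nch G Y (kb G X v τ)) : ℕ) : ℝ) := by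
      rw [Real.one_le_sqrt]
      exact_mod_cast h2
    linarith
  rw [Finset.sum_const, nsmul_eq_mul] at h1
  have h2 : (S.card : ℝ) ≤ 49 * R ^ 2 := by linarith
  exact_mod_cast h2

/-- The minority side has few children. -/
theorem min_nch {V : Type*} [Fintype V] [DecidableEq V] (G : SimpleGraph V)
    [DecidableRel G.Adj] (R : ℕ) (X Y : Finset V) (v : V)
    (h : ∑ τ ∈ tcs G X, gain G X Y v τ ≤ 49 / 2 * (R : ℝ) ^ 2) (τ : Finset V)
    (hτ : τ ∈ tcs G X) :
    min (nch G Y (ka G X v τ)) (nch G Y (kb G X v τ)) ≤ (49 * R ^ 2) ^ 2 := by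
  have h1 : gain G X Y v τ ≤ 49 / 2 * (R : ℝ) ^ 2 :=
    (Finset.single_le_sum (fun σ _ => gain_nonneg G X Y v σ) hτ).trans h
  have h2 := (gain_ge G X Y v τ).trans h1
  set m := min (nch G Y (ka G X v τ)) (nch G Y (kb G X v τ)) with hm
  have h3 : √(m : ℝ) ≤ 49 * (R : ℝ) ^ 2 := by linarith
  have h4 : (m : ℝ) ≤ (49 * (R : ℝ) ^ 2) ^ 2 := by
    rwa [Real.sqrt_le_left (by positivity)] at h3
  exact_mod_cast h4

theorem exists_chain (R : ℕ) (hR : 1 ≤ R) {V : Type*} [Fintype V] (G : SimpleGraph V)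
    (hlin : ∀ X : Finset V,
      (Set.range fun v => G.neighborSet v ∩ (X : Set V)).ncard ≤ R * (X.card + 1))
    (L : ℕ) (hL1 : 1 ≤ L) (hn : Fintype.card V ≤ (7 * R) ^ L) :
    ∃ r : ℕ → V → V,
      (∀ j x, r j (r j x) = r j x) ∧
      (∀ j x y, r (j + 1) x = r (j + 1) y → r j x = r j y) ∧
      (∀ x y, r 0 x = r 0 y) ∧
      (∀ v x y, r L x = r L y → (G.Adj v x ↔ G.Adj v y)) ∧
      (∀ j v, {p : V | ∃ x y, r j x = p ∧ r j y = p ∧ G.Adj v x ∧ ¬ G.Adj v y}.ncard ≤
        84 * R ^ 2) ∧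
      (∀ j x y, r (j + 1) x = r (j + 1) y → ∀ w, (G.Adj x (r j w) ↔ G.Adj y (r j w))) ∧
      (∀ j v p, {c : V | r (j + 1) c = c ∧ r j c = p ∧ G.Adj v c}.ncard ≤
          4 * (42 * R ^ 2) ^ 2 ∨
        {c : V | r (j + 1) c = c ∧ r j c = p ∧ ¬ G.Adj v c}.ncard ≤ 4 * (42 * R ^ 2) ^ 2) := by
  classical
  rcases isEmpty_or_nonempty V with hemp | hne
  · exact ⟨fun _ v => v, fun _ x => isEmptyElim x, fun _ x => isEmptyElim x,
      fun x => isEmptyElim x, fun v => isEmptyElim v, fun _ v => isEmptyElim v,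
      fun _ x => isEmptyElim x, fun _ v => isEmptyElim v⟩
  have hlin' : ∀ X : Finset V, (tcs G X).card ≤ R * (X.card + 1) := by
    intro X
    rw [card_tcs_le]
    exact hlin X
  obtain ⟨X, hX, hrep, hgain, hone⟩ := exists_good G R hR hlin' L hL1 hn
  have hrep' : ∀ j v, ∃ x ∈ X (j + 1), tr G (X j) x = tr G (X j) v := by
    intro j v
    rcases Nat.lt_or_ge j L with hj | hj
    · exact hrep j hj v
    · exact ⟨v, by rw [hX.top (j + 1) (by omega)]; exact Finset.mem_univ _, rfl⟩
  have hex : ∀ (j : ℕ) (τ : Finset V), ∃ x : V, (∃ v, tr G (X j) v = τ) →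
      x ∈ X (j + 1) ∧ tr G (X j) x = τ := by
    intro j τ
    by_cases h : ∃ v, tr G (X j) v = τ
    · obtain ⟨v, hv⟩ := h
      obtain ⟨x, hx, hxv⟩ := hrep' j v
      exact ⟨x, fun _ => ⟨hx, hxv.trans hv⟩⟩
    · exact ⟨hne.some, fun h' => absurd h' h⟩
  choose rep hrepr using hex
  set r : ℕ → V → V := fun j v => rep j (tr G (X j) v) with hr
  have hr1 : ∀ j v, r j v ∈ X (j + 1) := fun j v => (hrepr j _ ⟨v, rfl⟩).1
  have hr2 : ∀ j v, tr G (X j) (r j v) = tr G (X j) v := fun j v => (hrepr j _ ⟨v, rfl⟩).2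
  have hiff : ∀ j x y, r j x = r j y ↔ tr G (X j) x = tr G (X j) y := by
    intro j x y
    constructor
    · intro h
      rw [← hr2 j x, ← hr2 j y, h]
    · intro h
      simp only [hr, h]
  have hR2 : 1 ≤ R ^ 2 := Nat.one_le_pow _ _ hR
  have htop : ∀ j, L ≤ j → ∀ x y, r j x = r j y → ∀ v, (G.Adj v x ↔ G.Adj v y) := by
    intro j hj x y h v
    rw [hiff, tr_eq_iff, hX.top j hj] at h
    rw [G.adj_comm v x, G.adj_comm v y]
    exact h v (Finset.mem_univ _)
  refine ⟨r, ?_, ?_, ?_, ?_, ?_, ?_, ?_⟩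
  · intro j x
    rw [hiff]
    exact hr2 j x
  · intro j x y h
    rw [hiff] at h ⊢
    exact tr_mono G (hX.mono (Nat.le_succ j)) h
  · intro x y
    rw [hiff, hX.zero]
    simp [tr]
  · intro v x y h
    exact htop L le_rfl x y h v
  · intro j v
    rcases Nat.lt_or_ge j L with hj | hj
    · rcases Nat.eq_zero_or_pos j with h0 | h0
      · subst h0
        have hsub : {p : V | ∃ x y, r 0 x = p ∧ r 0 y = p ∧ G.Adj v x ∧ ¬ G.Adj v y} ⊆
            {r 0 v} := by
          rintro p ⟨x, y, hx, _⟩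
          rw [Set.mem_singleton_iff, ← hx, hiff, hX.zero]
          simp [tr]
        calc _ ≤ ({r 0 v} : Set V).ncard := Set.ncard_le_ncard hsub (Set.finite_singleton _)
          _ = 1 := Set.ncard_singleton _
          _ ≤ 84 * R ^ 2 := by omega
      · have h1 := split_card G R (X j) (X (j + 1)) v (hgain j hj h0 v)
        refine le_trans ?_ (h1.trans (by omega))
        rw [← Set.ncard_coe_finset]
        apply Set.ncard_le_ncard_of_injOn (fun p => tr G (X j) p)
        · rintro p ⟨x, y, hx, hy, hvx, hvy⟩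
          rw [Finset.mem_coe, Finset.mem_filter]
          refine ⟨(mem_tcs G).2 ⟨p, rfl⟩, ⟨x, ?_⟩, ⟨y, ?_⟩⟩
          · rw [ka, Finset.mem_filter, mem_cls, ← hr2 j x, hx]
            exact ⟨rfl, hvx⟩
          · rw [kb, Finset.mem_filter, mem_cls, ← hr2 j y, hy]
            exact ⟨rfl, hvy⟩
        · rintro p ⟨x, y, hx, _⟩ p' ⟨x', y', hx', _⟩ hpp
          have e1 : r j p = r j p' := (hiff j p p').2 hpp
          have e2 : r j p = p := by
            rw [← hx]; exact (hiff j _ _).2 (hr2 j x)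
          have e3 : r j p' = p' := by
            rw [← hx']; exact (hiff j _ _).2 (hr2 j x')
          rw [← e2, ← e3, e1]
    · have hsub : {p : V | ∃ x y, r j x = p ∧ r j y = p ∧ G.Adj v x ∧ ¬ G.Adj v y} = ∅ := by
        ext p
        simp only [Set.mem_ofPred_eq, Set.mem_empty_iff_false, iff_false]
        rintro ⟨x, y, hx, hy, hvx, hvy⟩
        exact hvy ((htop j hj x y (hx.trans hy.symm) v).1 hvx)
      rw [hsub, Set.ncard_empty]
      exact Nat.zero_le _
  · intro j x y h w
    rw [hiff, tr_eq_iff] at h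
    exact h _ (hr1 j w)
  · intro j v p
    have hinj : ∀ (P : V → Prop) (T : Finset V),
        (∀ c, r (j + 1) c = c → r j c = p → P c → c ∈ T) →
        {c : V | r (j + 1) c = c ∧ r j c = p ∧ P c}.ncard ≤ nch G (X (j + 1)) T := by
      intro P T hT
      unfold nch
      rw [← Set.ncard_coe_finset]
      apply Set.ncard_le_ncard_of_injOn (fun c => tr G (X (j + 1)) c)
      · rintro c ⟨h1, h2, h3⟩
        rw [Finset.mem_coe, Finset.mem_image]
        exact ⟨c, hT c h1 h2 h3, rfl⟩
      · rintro c ⟨h1, _⟩ c' ⟨h1', _⟩ hcc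
        have e1 : r (j + 1) c = r (j + 1) c' := (hiff (j + 1) c c').2 hcc
        rw [← h1, ← h1', e1]
    rcases Nat.lt_or_ge j L with hj | hj
    · rcases Nat.eq_zero_or_pos j with h0 | h0
      · subst h0
        left
        refine (hinj (fun c => G.Adj v c) univ (fun c _ _ _ => Finset.mem_univ _)).trans ?_
        have : nch G (X (0 + 1)) univ = (tcs G (X 1)).card := rfl
        rw [this]
        refine hone.trans ?_
        nlinarith
      · have h1 := min_nch G R (X j) (X (j + 1)) v (hgain j hj h0 v) (tr G (X j) p)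
          ((mem_tcs G).2 ⟨p, rfl⟩)
        have h2 : (49 * R ^ 2) ^ 2 ≤ 4 * (42 * R ^ 2) ^ 2 := by nlinarith
        have hp : ∀ c, r j c = p → tr G (X j) c = tr G (X j) p := by
          intro c hc
          rw [← hc]
          exact (hr2 j c).symm
        rcases min_le_iff.1 h1 with h3 | h3
        · left
          refine (hinj (fun c => G.Adj v c) (ka G (X j) v (tr G (X j) p)) ?_).trans
            (h3.trans h2)
          intro c _ hc hvc
          rw [ka, Finset.mem_filter, mem_cls]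
          exact ⟨hp c hc, hvc⟩
        · right
          refine (hinj (fun c => ¬ G.Adj v c) (kb G (X j) v (tr G (X j) p)) ?_).trans
            (h3.trans h2)
          intro c _ hc hvc
          rw [kb, Finset.mem_filter, mem_cls]
          exact ⟨hp c hc, hvc⟩
    · left
      have hsub : {c : V | r (j + 1) c = c ∧ r j c = p ∧ G.Adj v c}.ncard ≤ 1 := by
        rw [Set.ncard_le_one_iff]
        rintro c c' ⟨h1, h2, _⟩ ⟨h1', h2', _⟩
        have e1 : r j c = r j c' := h2.trans h2'.symm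
        rw [hiff, hX.top j hj] at e1
        have e2 : r (j + 1) c = r (j + 1) c' := by
          rw [hiff, hX.top (j + 1) (by omega)]
          exact e1
        rw [← h1, ← h1', e2]
      refine hsub.trans ?_
      nlinarith

end Pool.Agent.ILab
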