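import Mathlib

/-!
# The Abel summation for the tree codewords (MP_e2b059_co, part B)

`T s` is the set of nodes of level `s` of the tree of classes split by a vertex, `par s` the parent
map from level `s + 1` to level `s`; `α s p` is the logarithm of the number of rows which split the
class `p`, `g s` the logarithm of the size of the row class of level `s`. Along every edge the
codeword costs `α s (par s c) - α (s + 1) c` (up to a constant); all these costs together are at
most `3 * D * g 0`.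
-/

set_option autoImplicit false

namespace Pool.Agent.ILab

open Finset

theorem level_cost {ι : Type*} [DecidableEq ι] (T T' : Finset ι) (par : ι → ι)
    (α α' : ι → ℝ) (g g2 : ℝ) (hpar : ∀ c ∈ T', par c ∈ T) (hg2 : g2 ≤ g)
    (hα : ∀ p ∈ T, α p ≤ g)
    (hleaf : ∀ p ∈ T, (∀ c ∈ T', par c ≠ p) → g2 ≤ α p) :
    ∑ c ∈ T', (α (par c) - α' c) ≤
      (∑ p ∈ T, α p) - (∑ c ∈ T', α' c) + ((T'.card : ℝ) - T.card) * g + T.card * (g - g2) := by
  have h1 : ∑ c ∈ T', α (par c) = ∑ p ∈ T, ((T'.filter (fun c => par c = p)).card : ℝ) * α p := by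
    rw [← Finset.sum_fiberwise_of_maps_to hpar]
    refine Finset.sum_congr rfl fun p _ => ?_
    rw [← nsmul_eq_mul, ← Finset.sum_const]
    refine Finset.sum_congr rfl fun c hc => ?_
    rw [(Finset.mem_filter.1 hc).2]
  have h2 : (T'.card : ℝ) = ∑ p ∈ T, ((T'.filter (fun c => par c = p)).card : ℝ) := by
    rw [Finset.card_eq_sum_card_fiberwise (f := par) (s := T') (t := T)
      (fun c hc => hpar c hc)]
    push_cast
    rfl
  have h3 : ∀ p ∈ T, ((T'.filter (fun c => par c = p)).card : ℝ) * α p ≤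
      α p + (((T'.filter (fun c => par c = p)).card : ℝ) * g - g + (g - g2)) := by
    intro p hp
    rcases Nat.eq_zero_or_pos (T'.filter (fun c => par c = p)).card with h0 | h0
    · rw [h0]
      have h4 : g2 ≤ α p := by
        refine hleaf p hp fun c hc hcp => ?_
        rw [Finset.card_eq_zero] at h0
        have h5 : c ∈ T'.filter (fun c => par c = p) := Finset.mem_filter.2 ⟨hc, hcp⟩
        rw [h0] at h5
        simp at h5
      simp only [Nat.cast_zero, zero_mul]
      linarith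
    · have h5 : (1 : ℝ) ≤ ((T'.filter (fun c => par c = p)).card : ℝ) := by exact_mod_cast h0
      have h6 := mul_le_mul_of_nonneg_left (hα p hp) (sub_nonneg.2 h5)
      linarith
  rw [Finset.sum_sub_distrib, h1]
  have h4 := Finset.sum_le_sum h3
  rw [Finset.sum_add_distrib, Finset.sum_add_distrib, Finset.sum_sub_distrib,
    ← Finset.sum_mul, ← h2] at h4
  simp only [Finset.sum_const, nsmul_eq_mul] at h4
  linarith

/-- **The tree codewords cost at most `3 D g 0` in total.** -/
theorem tree_cost {ι : Type*} [DecidableEq ι] (L D : ℕ) (T : ℕ → Finset ι) (par : ℕ → ι → ι)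
    (α : ℕ → ι → ℝ) (g : ℕ → ℝ)
    (hpar : ∀ s < L, ∀ c ∈ T (s + 1), par s c ∈ T s)
    (hD : ∀ s, (T s).card ≤ D) (hL : T L = ∅)
    (hg : ∀ s, 0 ≤ g s) (anti : ∀ s, g (s + 1) ≤ g s)
    (hα : ∀ s, ∀ p ∈ T s, α s p ≤ g s)
    (hleaf : ∀ s < L, ∀ p ∈ T s, (∀ c ∈ T (s + 1), par s c ≠ p) → g (s + 2) ≤ α s p) :
    ∑ s ∈ range L, ∑ c ∈ T (s + 1), (α s (par s c) - α (s + 1) c) ≤ 3 * D * g 0 := by
  set Ψ : ℕ → ℝ := fun s => (∑ p ∈ T s, α s p) - (T s).card * g s with hΨ
  have key : ∀ s ∈ range L, ∑ c ∈ T (s + 1), (α s (par s c) - α (s + 1) c) ≤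
      (Ψ s - Ψ (s + 1)) + (D * (g s - g (s + 1)) + D * (g s - g (s + 1)) +
        D * (g (s + 1) - g (s + 2))) := by
    intro s hs
    have hs' := Finset.mem_range.1 hs
    have h1 := level_cost (T s) (T (s + 1)) (par s) (α s) (α (s + 1)) (g s) (g (s + 2))
      (hpar s hs') ((anti (s + 1)).trans (anti s)) (hα s) (hleaf s hs')
    have h2 : ((T (s + 1)).card : ℝ) * (g s - g (s + 1)) ≤ D * (g s - g (s + 1)) :=
      mul_le_mul_of_nonneg_right (by exact_mod_cast hD (s + 1)) (sub_nonneg.2 (anti s))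
    have h3 : ((T s).card : ℝ) * (g s - g (s + 2)) ≤ D * (g s - g (s + 2)) :=
      mul_le_mul_of_nonneg_right (by exact_mod_cast hD s)
        (sub_nonneg.2 ((anti (s + 1)).trans (anti s)))
    simp only [hΨ]
    linarith
  refine (Finset.sum_le_sum key).trans ?_
  rw [Finset.sum_add_distrib, Finset.sum_range_sub' Ψ L, Finset.sum_add_distrib,
    Finset.sum_add_distrib, ← Finset.mul_sum, ← Finset.mul_sum, Finset.sum_range_sub' g L,
    Finset.sum_range_sub' (fun s => g (s + 1)) L]
  have h0 : Ψ 0 ≤ 0 := by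
    have h1 : ∑ p ∈ T 0, α 0 p ≤ (T 0).card * g 0 := by
      rw [← nsmul_eq_mul]
      exact Finset.sum_le_card_nsmul _ _ _ (hα 0)
    simp only [hΨ]
    linarith
  have h1 : Ψ L = 0 := by simp [hΨ, hL]
  have hD0 : (0 : ℝ) ≤ D := Nat.cast_nonneg D
  have h2 : (D : ℝ) * (g 0 - g L) ≤ D * g 0 :=
    mul_le_mul_of_nonneg_left (by linarith [hg L]) hD0
  have h3 : (D : ℝ) * (g (0 + 1) - g (L + 1)) ≤ D * g 0 :=
    mul_le_mul_of_nonneg_left (by linarith [hg (L + 1), anti 0]) hD0
  rw [h1]
  linarith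

end Pool.Agent.ILab
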