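import Mathlib

/-!
# Self-delimiting encodings (MP_e2b059_co, part B)

`PrefixInj e` says that the encoding `e : α → List Bool` can be read off from the front of any bit
string. Combinators for `Bool`, `ℕ`, pairs and lists, with exact lengths.
-/

set_option autoImplicit false

namespace Pool.Agent.ILab

/-- the encoding `e` is self-delimiting -/
def PrefixInj {α : Type*} (e : α → List Bool) : Prop :=
  ∀ x y s t, e x ++ s = e y ++ t → x = y ∧ s = t

theorem PrefixInj.injective {α : Type*} {e : α → List Bool} (h : PrefixInj e) :
    Function.Injective e := by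
  intro x y hxy
  exact (h x y [] [] (by rw [hxy])).1

/-- one bit -/
def encBool (b : Bool) : List Bool := [b]

theorem encBool_prefix : PrefixInj encBool := by
  intro x y s t h
  simp only [encBool, List.cons_append, List.nil_append, List.cons.injEq] at h
  exact h

@[simp] theorem encBool_length (b : Bool) : (encBool b).length = 1 := rfl

/-- a one point type costs nothing -/
def encUnit (_ : Unit) : List Bool := []

theorem encUnit_prefix : PrefixInj encUnit := by
  intro x y s t h
  exact ⟨rfl, by simpa [encUnit] using h⟩

/-- concatenation -/
def encPair {α β : Type*} (e : α → List Bool) (f : β → List Bool) (p : α × β) : List Bool :=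
  e p.1 ++ f p.2

theorem encPair_prefix {α β : Type*} {e : α → List Bool} {f : β → List Bool}
    (he : PrefixInj e) (hf : PrefixInj f) : PrefixInj (encPair e f) := by
  rintro ⟨x, x'⟩ ⟨y, y'⟩ s t h
  simp only [encPair, List.append_assoc] at h
  obtain ⟨h1, h2⟩ := he _ _ _ _ h
  obtain ⟨h3, h4⟩ := hf _ _ _ _ h2
  exact ⟨by rw [h1, h3], h4⟩

@[simp] theorem encPair_length {α β : Type*} (e : α → List Bool) (f : β → List Bool) (p : α × β) :
    (encPair e f p).length = (e p.1).length + (f p.2).length := by
  simp [encPair]

/-- lists: a `true` before every element, `false` at the end -/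
def encList {α : Type*} (e : α → List Bool) : List α → List Bool
  | [] => [false]
  | x :: xs => true :: (e x ++ encList e xs)

theorem encList_prefix {α : Type*} {e : α → List Bool} (he : PrefixInj e) :
    PrefixInj (encList e) := by
  intro x
  induction x with
  | nil =>
    intro y s t h
    cases y with
    | nil => simpa [encList] using h
    | cons b bs => simp [encList] at h
  | cons a as ih =>
    intro y s t h
    cases y with
    | nil => simp [encList] at h
    | cons b bs =>
      simp only [encList, List.cons_append, List.append_assoc, List.cons.injEq, true_and] at h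
      obtain ⟨h1, h2⟩ := he _ _ _ _ h
      obtain ⟨h3, h4⟩ := ih _ _ _ h2
      exact ⟨by rw [h1, h3], h4⟩

@[simp] theorem encList_nil {α : Type*} (e : α → List Bool) : encList e [] = [false] := rfl

@[simp] theorem encList_cons {α : Type*} (e : α → List Bool) (x : α) (xs : List α) :
    encList e (x :: xs) = true :: (e x ++ encList e xs) := rfl

theorem encList_length {α : Type*} (e : α → List Bool) (l : List α) :
    (encList e l).length = 1 + (l.map fun x => 1 + (e x).length).sum := by
  induction l with
  | nil => simp
  | cons x xs ih =>
    simp only [encList_cons, List.length_cons, List.length_append, ih, List.map_cons, List.sum_cons]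
    ring

/-- natural numbers: the list of binary digits -/
def encNat (n : ℕ) : List Bool := encList encBool n.bits

theorem encNat_prefix : PrefixInj encNat := by
  intro x y s t h
  obtain ⟨h1, h2⟩ := encList_prefix encBool_prefix _ _ _ _ h
  refine ⟨?_, h2⟩
  have hx : ∀ n : ℕ, n.bits.foldr Nat.bit 0 = n := by
    intro n
    induction n using Nat.binaryRec' with
    | zero => simp
    | bit b n hn ih => rw [Nat.bits_append_bit n b hn, List.foldr_cons, ih]
  rw [← hx x, ← hx y, h1]

theorem encNat_length (n : ℕ) : (encNat n).length = 2 * n.size + 1 := by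
  rw [encNat, encList_length]
  simp only [encBool_length]
  rw [← Nat.size_eq_bits_len]
  simp only [List.map_const', List.sum_replicate, smul_eq_mul]
  ring

/-- the length in terms of the binary logarithm -/
theorem encNat_length_le (n : ℕ) : (encNat n).length ≤ 2 * Nat.log 2 n + 3 := by
  rw [encNat_length]
  have h : n.size ≤ Nat.log 2 n + 1 := by
    rw [Nat.size_le]
    exact Nat.lt_pow_succ_log_self (by norm_num) n
  omega

/-- the length in terms of the real logarithm: if `1 ≤ n ≤ B` then `2 * logb 2 B + 3` bits suffice -/
theorem encNat_length_le_logb (n : ℕ) (B : ℝ) (hn : 1 ≤ n) (hB : (n : ℝ) ≤ B) :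
    ((encNat n).length : ℝ) ≤ 2 * Real.logb 2 B + 3 := by
  have h1 : ((encNat n).length : ℝ) ≤ 2 * (Nat.log 2 n : ℝ) + 3 := by
    exact_mod_cast encNat_length_le n
  have h2 : (Nat.log 2 n : ℝ) ≤ Real.logb 2 B := by
    have hn0 : (0 : ℝ) < n := by exact_mod_cast hn
    rw [Real.le_logb_iff_rpow_le (by norm_num) (lt_of_lt_of_le hn0 hB)]
    calc (2 : ℝ) ^ ((Nat.log 2 n : ℕ) : ℝ) = ((2 ^ Nat.log 2 n : ℕ) : ℝ) := by
          rw [Real.rpow_natCast]; push_cast; ring
      _ ≤ (n : ℝ) := by exact_mod_cast Nat.pow_log_le_self 2 (by omega)
      _ ≤ B := hB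
  linarith

end Pool.Agent.ILab
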