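import Mathlib

/-! # Prefix-injective encodings and the type of labels (part B of the labelling proof) -/

namespace Pool.Agent.ILab

/-- `e` is prefix-injective: from `e x ++ s` one can read off `x` and `s`. -/
def PInj {α : Type} (e : α → List Bool) : Prop :=
  ∀ x y s t, e x ++ s = e y ++ t → x = y ∧ s = t

lemma PInj.inj {α : Type} {e : α → List Bool} (h : PInj e) : Function.Injective e := by
  intro x y hxy
  exact (h x y [] [] (by simp [hxy])).1

/-- encoding of one bit -/
def eBool (b : Bool) : List Bool := [b]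

lemma eBool_pinj : PInj eBool := by
  intro x y s t h
  simpa [eBool] using h

/-- encoding of pairs -/
def eProd {α β : Type} (e : α → List Bool) (f : β → List Bool) (p : α × β) : List Bool :=
  e p.1 ++ f p.2

lemma eProd_pinj {α β : Type} {e : α → List Bool} {f : β → List Bool} (he : PInj e)
    (hf : PInj f) : PInj (eProd e f) := by
  rintro ⟨a, b⟩ ⟨a', b'⟩ s t h
  simp only [eProd, List.append_assoc] at h
  obtain ⟨h1, h2⟩ := he _ _ _ _ h
  obtain ⟨h3, h4⟩ := hf _ _ _ _ h2
  exact ⟨by rw [h1, h3], h4⟩

/-- encoding of lists -/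
def eList {α : Type} (e : α → List Bool) : List α → List Bool
  | [] => [false]
  | a :: l => true :: (e a ++ eList e l)

lemma eList_pinj {α : Type} {e : α → List Bool} (he : PInj e) : PInj (eList e) := by
  intro x
  induction x with
  | nil =>
    intro y s t h
    cases y with
    | nil => simpa [eList] using h
    | cons b l => simp [eList] at h
  | cons a l ih =>
    intro y s t h
    cases y with
    | nil => simp [eList] at h
    | cons b l' =>
      simp only [eList, List.cons_append, List.append_assoc, List.cons.injEq, true_and] at h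
      obtain ⟨h1, h2⟩ := he _ _ _ _ h
      obtain ⟨h3, h4⟩ := ih _ _ _ h2
      exact ⟨by rw [h1, h3], h4⟩

lemma eList_length {α : Type} (e : α → List Bool) (l : List α) :
    (eList e l).length = (l.map (fun a => (e a).length + 1)).sum + 1 := by
  induction l with
  | nil => simp [eList]
  | cons a l ih => simp [eList, ih]; ring

/-- encoding of natural numbers: the list of the bits -/
def eNat (n : ℕ) : List Bool := eList eBool n.bits

lemma bits_inj : Function.Injective Nat.bits := by
  intro a b h
  have h2 : Nat.digits 2 a = Nat.digits 2 b := by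
    rw [Nat.digits_two_eq_bits, Nat.digits_two_eq_bits, h]
  exact Nat.digits.injective 2 h2

lemma eNat_pinj : PInj eNat := by
  intro x y s t h
  obtain ⟨h1, h2⟩ := eList_pinj eBool_pinj _ _ _ _ h
  exact ⟨bits_inj h1, h2⟩

lemma eNat_length (n : ℕ) : ((eNat n).length : ℝ) ≤ 2 * Real.logb 2 (n + 1) + 3 := by
  have h1 : (eNat n).length = 2 * n.size + 1 := by
    rw [eNat, eList_length, ← Nat.size_eq_bits_len]
    simp [eBool, mul_comm]
  have h2 : (n.size : ℝ) ≤ Real.logb 2 (n + 1) + 1 := by
    rcases Nat.eq_zero_or_pos n with h0 | h0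
    · subst h0; simp
    · obtain ⟨k, hk⟩ : ∃ k, n.size = k + 1 :=
        ⟨n.size - 1, (Nat.succ_pred_eq_of_pos (Nat.size_pos.2 h0)).symm⟩
      have h3 : 2 ^ k ≤ n := by
        rw [← Nat.lt_size]; omega
      have h4 : (k : ℝ) ≤ Real.logb 2 (n + 1) := by
        rw [Real.le_logb_iff_rpow_le (by norm_num) (by positivity)]
        rw [Real.rpow_natCast]
        have : ((2 ^ k : ℕ) : ℝ) ≤ n := by exact_mod_cast h3
        push_cast at this
        linarith
      rw [hk]; push_cast; linarith
  rw [h1]; push_cast; linarith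

/-- The type of labels with `k` remaining levels. -/
def Lab : ℕ → Type
  | 0 => Unit
  | k + 1 => Bool × ℕ × List ℕ × List (ℕ × Lab k)

/-- The encoding of labels by bit strings. -/
def encLab : (k : ℕ) → Lab k → List Bool
  | 0 => fun _ => []
  | k + 1 => fun x => eProd eBool (eProd eNat (eProd (eList eNat) (eList (eProd eNat (encLab k))))) x

lemma encLab_pinj : ∀ k, PInj (encLab k)
  | 0 => by
    intro x y s t h
    exact ⟨rfl, by simpa [encLab] using h⟩
  | k + 1 => by
    have ih := encLab_pinj k
    have := eProd_pinj eBool_pinj (eProd_pinj eNat_pinj (eProd_pinj (eList_pinj eNat_pinj)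
      (eList_pinj (eProd_pinj eNat_pinj ih))))
    intro x y s t h
    exact this x y s t h

/-- The decoder on label trees. -/
def decLab : (k : ℕ) → Lab k → Lab k → Prop
  | 0 => fun _ _ => False
  | k + 1 => fun x y =>
      (y.2.1 ∉ x.2.2.2.map Prod.fst ∧ (x.1 = true ↔ y.2.1 ∉ x.2.2.1)) ∨
      (y.2.1 ∈ x.2.2.2.map Prod.fst ∧ x.2.1 ∉ y.2.2.2.map Prod.fst ∧
        (y.1 = true ↔ x.2.1 ∉ y.2.2.1)) ∨
      (∃ t t' : Lab k, (y.2.1, t) ∈ x.2.2.2 ∧ (x.2.1, t') ∈ y.2.2.2 ∧ decLab k t t')

end Pool.Agent.ILab
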