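import Mathlib
import Pool.Agent.ILab.LabCode

/-! # Labels from a chain of partitions: definitions

A chain of nested partitions of the vertex set is given by functions `r j : V → V`, `r j x` being
the representative of the class of `x` at level `j`.  -/

namespace Pool.Agent.ILab

open Classical Finset

/-- The hypotheses on the chain. -/
structure Chain {V : Type} [Fintype V] (G : SimpleGraph V) (r : ℕ → V → V) (L D M : ℕ) : Prop where
  hid : ∀ j x, r j (r j x) = r j x
  hnest : ∀ j x y, r (j + 1) x = r (j + 1) y → r j x = r j y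
  h0 : ∀ x y, r 0 x = r 0 y
  hL : ∀ v x y, r L x = r L y → (G.Adj v x ↔ G.Adj v y)
  hD : ∀ j v, {p : V | ∃ x y, r j x = p ∧ r j y = p ∧ G.Adj v x ∧ ¬ G.Adj v y}.ncard ≤ D
  hRep : ∀ j x y, r (j + 1) x = r (j + 1) y → ∀ w, (G.Adj x (r j w) ↔ G.Adj y (r j w))
  hE : ∀ j v p, {c : V | r (j + 1) c = c ∧ r j c = p ∧ G.Adj v c}.ncard ≤ M ∨
    {c : V | r (j + 1) c = c ∧ r j c = p ∧ ¬ G.Adj v c}.ncard ≤ M

variable {V : Type} [Fintype V] (G : SimpleGraph V) (r : ℕ → V → V) (M : ℕ)

/-- `v` splits the class `p` of level `j`. -/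
def Spl (j : ℕ) (v p : V) : Prop := ∃ x y, r j x = p ∧ r j y = p ∧ G.Adj v x ∧ ¬ G.Adj v y

/-- The classes of level `j` split by `v` (the nodes of level `j` of the tree of `v`). -/
noncomputable def Nd (j : ℕ) (v : V) : Finset V := univ.filter (fun p => Spl G r j v p)

/-- The children (classes of level `j+1`) of the class `p` of level `j`. -/
noncomputable def Ch (j : ℕ) (p : V) : Finset V := univ.filter (fun c => r (j + 1) c = c ∧ r j c = p)

/-- The majority bit of `v` on the class `p` of level `j`. -/
noncomputable def bit (j : ℕ) (v p : V) : Bool :=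
  decide (((Ch r j p).filter (fun c => ¬ G.Adj v c)).card ≤ M)

/-- The exceptional children. -/
noncomputable def Exc (j : ℕ) (v p : V) : Finset V :=
  (Ch r j p).filter (fun c => ¬ (bit G r M j v p = true ↔ G.Adj v c))

/-- The size of the class `p` of level `j`. -/
noncomputable def sz (j : ℕ) (p : V) : ℕ := (univ.filter (fun x => r j x = p)).card

/-- The number of members of the class `ρ` which split the class `p` (both of level `j`). -/
noncomputable def AA (j : ℕ) (ρ p : V) : ℕ :=
  (univ.filter (fun v => r j v = ρ ∧ Spl G r j v p)).card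

/-- The number of members of the class `ρ` of level `j` which split the class `c` of level
`j+1`. -/
noncomputable def A2 (j : ℕ) (ρ c : V) : ℕ :=
  (univ.filter (fun v => r j v = ρ ∧ Spl G r (j + 1) v c)).card

/-- The number of members `v` of the class `ρ` of level `j` for which `c` is an exceptional child
of `p`. -/
noncomputable def A3 (j : ℕ) (ρ p c : V) : ℕ :=
  (univ.filter (fun v => r j v = ρ ∧ c ∈ Exc G r M j v p)).card

/-- The children of `p` split by `v`. -/
noncomputable def SCh (j : ℕ) (v p : V) : Finset V := (Ch r j p).filter (fun c => Spl G r (j + 1) v c)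

/-- A numbering of the children in every context: `idx j ρ p c` is the number of the child `c` of
`p` in the context `(ρ, p)`. -/
structure Good (D : ℕ) (idx : ℕ → V → V → V → ℕ) : Prop where
  inj : ∀ j ρ p, Set.InjOn (idx j ρ p) (Ch r j p)
  b1 : ∀ j ρ p c, c ∈ Ch r j p → (idx j ρ p c + 1) * sz r (j + 1) c ≤ 3 * sz r j p
  b2 : ∀ j ρ p c, c ∈ Ch r j p → (idx j ρ p c + 1) * A2 G r j ρ c ≤ 3 * (D * AA G r j ρ p)
  b3 : ∀ j ρ p c, c ∈ Ch r j p → (idx j ρ p c + 1) * A3 G r M j ρ p c ≤ 3 * (M * sz r j ρ)

/-- The label of `v` at its node `p` of level `j`, with `k` remaining levels. -/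
noncomputable def mk (idx : ℕ → V → V → V → ℕ) : (k : ℕ) → V → ℕ → V → Lab k
  | 0 => fun _ _ _ => ()
  | k + 1 => fun v j p =>
      (bit G r M j v p, idx j p (r j v) (r (j + 1) v),
        (Exc G r M j v p).toList.map (idx j (r j v) p),
        (SCh G r j v p).toList.map (fun c => (idx j (r j v) p c, mk idx k v (j + 1) c)))

end Pool.Agent.ILab
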