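import Mathlib
import Pool.Agent.ILab.LabDef

/-! # Correctness of the decoder -/

namespace Pool.Agent.ILab

open Classical Finset

variable {V : Type} [Fintype V] {G : SimpleGraph V} {r : ℕ → V → V} {L D M : ℕ}

lemma mem_Ch_self (h : Chain G r L D M) (j : ℕ) (x : V) : r (j + 1) x ∈ Ch r j (r j x) := by
  have h1 : r j (r (j + 1) x) = r j x := h.hnest j _ _ (h.hid (j + 1) x)
  simp [Ch, h.hid, h1]

lemma mem_map_idx {α : Type} {f : α → ℕ} {S T : Finset α} (hf : Set.InjOn f T) (hS : S ⊆ T)
    {c : α} (hc : c ∈ T) : f c ∈ S.toList.map f ↔ c ∈ S := by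
  simp only [List.mem_map, Finset.mem_toList]
  constructor
  · rintro ⟨a, ha, hac⟩
    rwa [← hf (hS ha) hc hac]
  · intro hcS
    exact ⟨c, hcS, rfl⟩

lemma hom_of_not_Spl {j : ℕ} {v p x y : V} (h : ¬ Spl G r j v p) (hx : r j x = p)
    (hy : r j y = p) : G.Adj v x ↔ G.Adj v y := by
  constructor
  · intro hv
    by_contra hn
    exact h ⟨x, y, hx, hy, hv, hn⟩
  · intro hv
    by_contra hn
    exact h ⟨y, x, hy, hx, hv, hn⟩

lemma bit_iff (h : Chain G r L D M) (j : ℕ) (v x : V)
    (hs : r (j + 1) x ∉ SCh G r j v (r j x)) :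
    (bit G r M j v (r j x) = true ↔ r (j + 1) x ∉ Exc G r M j v (r j x)) ↔ G.Adj v x := by
  have hc := mem_Ch_self h j x
  have hn : ¬ Spl G r (j + 1) v (r (j + 1) x) := by
    intro hsp
    exact hs (by simp [SCh, hc, hsp])
  have ha : G.Adj v x ↔ G.Adj v (r (j + 1) x) := hom_of_not_Spl hn rfl (h.hid (j + 1) x)
  rw [ha]
  have : r (j + 1) x ∈ Exc G r M j v (r j x) ↔
      ¬ (bit G r M j v (r j x) = true ↔ G.Adj v (r (j + 1) x)) := by
    simp only [Exc, Finset.mem_filter, hc, true_and]
  rw [this]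
  tauto

theorem dec_iff (h : Chain G r L D M) {idx : ℕ → V → V → V → ℕ} (hg : Good G r M D idx) :
    ∀ k j v x, j + k = L → Spl G r j v (r j x) → Spl G r j x (r j v) →
      (decLab k (mk G r M idx k v j (r j x)) (mk G r M idx k x j (r j v)) ↔ G.Adj v x) := by
  intro k
  induction k with
  | zero =>
    intro j v x hj hs _
    obtain ⟨y, z, hy, hz, h1, h2⟩ := hs
    simp only [Nat.add_zero] at hj
    subst hj
    exact absurd ((h.hL v y z (hy.trans hz.symm)).1 h1) h2
  | succ k ih =>
    intro j v x hj hs hs'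
    have key : ∀ v x : V, idx j (r j v) (r j x) (r (j + 1) x) ∈
        ((SCh G r j v (r j x)).toList.map
          (fun c => (idx j (r j v) (r j x) c, mk G r M idx k v (j + 1) c))).map Prod.fst ↔
        r (j + 1) x ∈ SCh G r j v (r j x) := by
      intro v x
      rw [List.map_map]
      exact mem_map_idx (f := idx j (r j v) (r j x)) (hg.inj j (r j v) (r j x))
        (Finset.filter_subset _ _) (mem_Ch_self h j x)
    have keyE : ∀ v x : V, idx j (r j v) (r j x) (r (j + 1) x) ∈
        (Exc G r M j v (r j x)).toList.map (idx j (r j v) (r j x)) ↔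
        r (j + 1) x ∈ Exc G r M j v (r j x) := by
      intro v x
      exact mem_map_idx (f := idx j (r j v) (r j x)) (hg.inj j (r j v) (r j x))
        (Finset.filter_subset _ _) (mem_Ch_self h j x)
    have keyP : ∀ (v x : V) (t : Lab k), (idx j (r j v) (r j x) (r (j + 1) x), t) ∈
        (SCh G r j v (r j x)).toList.map
          (fun c => (idx j (r j v) (r j x) c, mk G r M idx k v (j + 1) c)) ↔
        (r (j + 1) x ∈ SCh G r j v (r j x) ∧ t = mk G r M idx k v (j + 1) (r (j + 1) x)) := by
      intro v x t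
      simp only [List.mem_map, Finset.mem_toList, Prod.mk.injEq]
      constructor
      · rintro ⟨a, ha, hac, hat⟩
        have : a = r (j + 1) x := hg.inj j (r j v) (r j x) (Finset.filter_subset _ _ ha)
          (mem_Ch_self h j x) hac
        subst this
        exact ⟨ha, hat.symm⟩
      · rintro ⟨ha, rfl⟩
        exact ⟨_, ha, rfl, rfl⟩
    simp only [decLab, mk]
    rw [key v x, key x v, keyE v x, keyE x v]
    simp only [keyP v x, keyP x v]
    by_cases c1 : r (j + 1) x ∈ SCh G r j v (r j x)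
    · by_cases c2 : r (j + 1) v ∈ SCh G r j x (r j v)
      · have e1 : Spl G r (j + 1) v (r (j + 1) x) := (Finset.mem_filter.1 c1).2
        have e2 : Spl G r (j + 1) x (r (j + 1) v) := (Finset.mem_filter.1 c2).2
        have := ih (j + 1) v x (by omega) e1 e2
        rw [← this]
        constructor
        · rintro (⟨h1, _⟩ | ⟨_, h1, _⟩ | ⟨t, t', ⟨_, rfl⟩, ⟨_, rfl⟩, h3⟩)
          · exact absurd c1 h1
          · exact absurd c2 h1
          · exact h3
        · intro h3
          exact Or.inr (Or.inr ⟨_, _, ⟨c1, rfl⟩, ⟨c2, rfl⟩, h3⟩)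
      · have hb := bit_iff h j x v c2
        rw [G.adj_comm x v] at hb
        constructor
        · rintro (⟨h1, _⟩ | ⟨_, h1, h2⟩ | ⟨t, t', ⟨_, rfl⟩, ⟨h4, rfl⟩, h3⟩)
          · exact absurd c1 h1
          · exact hb.1 h2
          · exact absurd h4 c2
        · intro h3
          exact Or.inr (Or.inl ⟨c1, c2, hb.2 h3⟩)
    · have hb := bit_iff h j v x c1
      constructor
      · rintro (⟨h1, h2⟩ | ⟨h1, _⟩ | ⟨t, t', ⟨h4, rfl⟩, _⟩)
        · exact hb.1 h2
        · exact absurd h1 c1
        · exact absurd h4 c1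
      · intro h3
        exact Or.inl ⟨c1, hb.2 h3⟩

end Pool.Agent.ILab
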