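import Mathlib
import Pool.Agent.ILab.LabDef

/-! # Three sums over the children of a class -/

namespace Pool.Agent.ILab

open Classical Finset

variable {V : Type} [Fintype V] {G : SimpleGraph V} {r : ℕ → V → V} {L D M : ℕ}

/-- at most `M` exceptions: if `bit = true` the non-adjacent children are at most `M` by
definition of `bit`; if `bit = false` there are more than `M` non-adjacent children and `hE` gives
that the adjacent ones are at most `M`.  (`ncard` of a set-builder = card of the filter:
`Set.ncard_eq_toFinset_card'` or `Set.ncard_coe_finset`.) -/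
lemma card_Exc (h : Chain G r L D M) (j : ℕ) (v p : V) : (Exc G r M j v p).card ≤ M := by
  have e1 : {c : V | r (j + 1) c = c ∧ r j c = p ∧ G.Adj v c} =
      ↑((Ch r j p).filter (fun c => G.Adj v c)) := by
    ext c
    simp [Ch, and_assoc]
  have e2 : {c : V | r (j + 1) c = c ∧ r j c = p ∧ ¬ G.Adj v c} =
      ↑((Ch r j p).filter (fun c => ¬ G.Adj v c)) := by
    ext c
    simp [Ch, and_assoc]
  have h1 := h.hE j v p
  rw [e1, e2, Set.ncard_coe_finset, Set.ncard_coe_finset] at h1
  unfold Exc
  by_cases hb : ((Ch r j p).filter (fun c => ¬ G.Adj v c)).card ≤ M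
  · have hbit : bit G r M j v p = true := by
      unfold bit
      exact decide_eq_true hb
    have e3 : (Ch r j p).filter (fun c => ¬ (bit G r M j v p = true ↔ G.Adj v c)) =
        (Ch r j p).filter (fun c => ¬ G.Adj v c) := by
      refine Finset.filter_congr fun c _ => ?_
      rw [hbit]
      simp
    rw [e3]
    exact hb
  · have hbit : bit G r M j v p = false := by
      unfold bit
      exact decide_eq_false hb
    have e3 : (Ch r j p).filter (fun c => ¬ (bit G r M j v p = true ↔ G.Adj v c)) =
        (Ch r j p).filter (fun c => G.Adj v c) := by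
      refine Finset.filter_congr fun c _ => ?_
      rw [hbit]
      simp
    rw [e3]
    rcases h1 with h1 | h1
    · exact h1
    · exact absurd h1 hb

/-- members of a child are members of the parent -/
lemma sum_parent (h : Chain G r L D M) {j : ℕ} {c p x : V} (hc : c ∈ Ch r j p)
    (hx : r (j + 1) x = c) : r j x = p := by
  unfold Ch at hc
  rw [Finset.mem_filter] at hc
  have h1 : r (j + 1) x = r (j + 1) c := by rw [hc.2.1, hx]
  rw [h.hnest j x c h1, hc.2.2]

/-- the classes of level `j+1` inside `p` are disjoint subsets of `p`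
(`x ↦ r (j+1) x`, `hnest`, `hid`). -/
lemma sum_sz (h : Chain G r L D M) (j : ℕ) (p : V) :
    ∑ c ∈ Ch r j p, sz r (j + 1) c ≤ sz r j p := by
  have hmap : ∀ x ∈ (univ.filter (fun x => r j x = p) : Finset V), r (j + 1) x ∈ Ch r j p := by
    intro x hx
    rw [Finset.mem_filter] at hx
    unfold Ch
    rw [Finset.mem_filter]
    refine ⟨Finset.mem_univ _, h.hid (j + 1) x, ?_⟩
    rw [h.hnest j (r (j + 1) x) x (h.hid (j + 1) x), hx.2]
  unfold sz
  rw [Finset.card_eq_sum_card_fiberwise hmap]
  refine Finset.sum_le_sum fun c hc => Finset.card_le_card fun x hx => ?_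
  rw [Finset.mem_filter] at hx
  rw [Finset.mem_filter, Finset.mem_filter]
  exact ⟨⟨Finset.mem_univ _, sum_parent h hc hx.2⟩, hx.2⟩

/-- at most `D` classes are split by any `v` (`hD`) -/
lemma card_Nd (h : Chain G r L D M) (j : ℕ) (v : V) : (Nd G r j v).card ≤ D := by
  have e1 : {p : V | ∃ x y, r j x = p ∧ r j y = p ∧ G.Adj v x ∧ ¬ G.Adj v y} =
      ↑(Nd G r j v) := by
    ext p
    simp [Nd, Spl]
  have h1 := h.hD j v
  rw [e1, Set.ncard_coe_finset] at h1
  exact h1

/-- a vertex splitting a child splits the parent -/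
lemma spl_parent (h : Chain G r L D M) {j : ℕ} {v c p : V} (hc : c ∈ Ch r j p)
    (hs : Spl G r (j + 1) v c) : Spl G r j v p := by
  obtain ⟨x, y, hx, hy, h1, h2⟩ := hs
  exact ⟨x, y, sum_parent h hc hx, sum_parent h hc hy, h1, h2⟩

/-- double counting: every `v` in `ρ` splits at most `D` classes `c` of level `j+1`, and if it splits a
child `c` of `p` it splits `p` (`hnest`). -/
lemma sum_A2 (h : Chain G r L D M) (j : ℕ) (ρ p : V) :
    ∑ c ∈ Ch r j p, A2 G r j ρ c ≤ D * AA G r j ρ p := by
  unfold A2 AA
  simp only [Finset.card_filter]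
  rw [Finset.sum_comm, Finset.mul_sum]
  refine Finset.sum_le_sum fun v _ => ?_
  by_cases hv : r j v = ρ ∧ Spl G r j v p
  · rw [if_pos hv, mul_one, ← Finset.card_filter]
    refine le_trans (Finset.card_le_card fun c hc => ?_) (card_Nd h (j + 1) v)
    rw [Finset.mem_filter] at hc
    unfold Nd
    rw [Finset.mem_filter]
    exact ⟨Finset.mem_univ _, hc.2.2⟩
  · rw [if_neg hv, mul_zero]
    refine le_of_eq (Finset.sum_eq_zero fun c hc => ?_)
    rw [if_neg]
    rintro ⟨h1, h2⟩
    exact hv ⟨h1, spl_parent h hc h2⟩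

/-- double counting with `card_Exc`. -/
lemma sum_A3 (h : Chain G r L D M) (j : ℕ) (ρ p : V) :
    ∑ c ∈ Ch r j p, A3 G r M j ρ p c ≤ M * sz r j ρ := by
  unfold A3 sz
  simp only [Finset.card_filter]
  rw [Finset.sum_comm, Finset.mul_sum]
  refine Finset.sum_le_sum fun v _ => ?_
  by_cases hv : r j v = ρ
  · rw [if_pos hv, mul_one, ← Finset.card_filter]
    refine le_trans (Finset.card_le_card fun c hc => ?_) (card_Exc h j v p)
    rw [Finset.mem_filter] at hc
    exact hc.2.2
  · rw [if_neg hv, mul_zero]
    refine le_of_eq (Finset.sum_eq_zero fun c hc => ?_)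
    rw [if_neg]
    rintro ⟨h1, h2⟩
    exact hv h1

end Pool.Agent.ILab
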