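import Mathlib
import Pool.Agent.ILab.LabDef
import Pool.Agent.ILab.LabSum

/-! # Lengths of the single codewords -/

namespace Pool.Agent.ILab

open Classical Finset

variable {V : Type} [Fintype V] {G : SimpleGraph V} {r : ℕ → V → V} {L D M : ℕ}

/-- base 2 logarithm of the size of the class of `v` at level `j` -/
noncomputable def lam (r : ℕ → V → V) (j : ℕ) (v : V) : ℝ := Real.logb 2 (sz r j (r j v))

/-- base 2 logarithm of the number of the members of the class of `v` which split `p` -/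
noncomputable def alp (G : SimpleGraph V) (r : ℕ → V → V) (j : ℕ) (v p : V) : ℝ :=
  Real.logb 2 (AA G r j (r j v) p)

lemma sz_pos (j : ℕ) (v : V) : 1 ≤ sz r j (r j v) :=
  Finset.card_pos.mpr ⟨v, by simp⟩

/-- sizes: `v` itself is counted, so `sz ≥ 1`. -/
lemma lam_nonneg (j : ℕ) (v : V) : 0 ≤ lam r j v :=
  Real.logb_nonneg (by norm_num) (by exact_mod_cast sz_pos j v)

lemma logb_mono_nat {a b : ℕ} (ha : 1 ≤ a) (hab : a ≤ b) : Real.logb 2 (a : ℝ) ≤ Real.logb 2 b :=
  Real.logb_le_logb_of_le (by norm_num) (by exact_mod_cast ha) (by exact_mod_cast hab)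

/-- From `(i+1) b ≤ 3 (m s)` to logarithms. -/
lemma log_aux {i b b' m s : ℕ} (hb' : 1 ≤ b') (hbb : b' ≤ b) (hm : 1 ≤ m) (hs : 1 ≤ s)
    (h : (i + 1) * b ≤ 3 * (m * s)) :
    Real.logb 2 ((i : ℝ) + 1) ≤ 2 + m + Real.logb 2 s - Real.logb 2 b' := by
  have h1 : (i + 1) * b' ≤ 3 * (m * s) := le_trans (Nat.mul_le_mul_left _ hbb) h
  have h2 : Real.logb 2 (((i + 1) * b' : ℕ) : ℝ) ≤ Real.logb 2 ((3 * (m * s) : ℕ) : ℝ) :=
    logb_mono_nat (Nat.mul_pos (Nat.succ_pos i) hb') h1
  have hi : ((i : ℝ) + 1) ≠ 0 := by positivity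
  have hb0 : (b' : ℝ) ≠ 0 := by positivity
  have hm0 : (m : ℝ) ≠ 0 := by positivity
  have hs0 : (s : ℝ) ≠ 0 := by positivity
  push_cast at h2
  rw [Real.logb_mul hi hb0, Real.logb_mul (by norm_num) (mul_ne_zero hm0 hs0),
    Real.logb_mul hm0 hs0] at h2
  have h3 : Real.logb 2 3 ≤ 2 := by
    rw [Real.logb_le_iff_le_rpow (by norm_num) (by norm_num)]
    norm_num
  have h4 : Real.logb 2 (m : ℝ) ≤ m := by
    rw [Real.logb_le_iff_le_rpow (by norm_num) (by positivity)]
    rw [Real.rpow_natCast]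
    exact_mod_cast (Nat.lt_two_pow_self (n := m)).le
  linarith

lemma lam_anti (h : Chain G r L D M) (j : ℕ) (v : V) : lam r (j + 1) v ≤ lam r j v := by
  refine logb_mono_nat (sz_pos _ _) (Finset.card_le_card fun x hx => ?_)
  simp only [Finset.mem_filter, Finset.mem_univ, true_and] at hx ⊢
  exact h.hnest j x v hx

lemma lam_le_card (j : ℕ) (v : V) : lam r j v ≤ Real.logb 2 (Fintype.card V) :=
  logb_mono_nat (sz_pos _ _) (Finset.card_le_univ _)

/-- `AA ≤ sz` (and `v` itself is counted in `AA`, so that the logarithm is monotone there). -/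
lemma alp_le (j : ℕ) (v p : V) (hp : p ∈ Nd G r j v) : alp G r j v p ≤ lam r j v := by
  have hS : Spl G r j v p := by simpa [Nd] using hp
  refine logb_mono_nat (Finset.card_pos.mpr ⟨v, by simp [hS]⟩) (Finset.card_le_card fun x hx => ?_)
  simp only [Finset.mem_filter, Finset.mem_univ, true_and] at hx ⊢
  exact hx.1

lemma AA_pos (j : ℕ) (v p : V) (hp : p ∈ Nd G r j v) : 1 ≤ AA G r j (r j v) p := by
  have hS : Spl G r j v p := by simpa [Nd] using hp
  exact Finset.card_pos.mpr ⟨v, by simp [hS]⟩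

lemma rep_mem (h : Chain G r L D M) (j : ℕ) (x : V) : r (j + 1) x ∈ Ch r j (r j x) := by
  simp only [Ch, Finset.mem_filter, Finset.mem_univ, true_and]
  exact ⟨h.hid _ _, h.hnest j _ _ (h.hid _ _)⟩

/-- LEAF: if `v` splits `p` but none of its children, all members of the class of `v` at level
`j+2` split `p`.  Proof: take `x, y` in `p`, `v` adjacent to `x` and not to `y`; `v` is homogeneous on the
classes of `x` and `y` of level `j+1`, so it is adjacent to `r (j+1) x` and not to `r (j+1) y`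
(use `hid` to see that these are members of the classes); by `hRep (j+1)` every `v'` with
`r (j+2) v' = r (j+2) v` has the same two adjacencies, and the two vertices are in `p` (`hnest`,
`hid`), so `v'` splits `p`; and `r j v' = r j v` by `hnest` twice. -/
lemma leaf_le (h : Chain G r L D M) (j : ℕ) (v p : V) (hp : p ∈ Nd G r j v)
    (hl : SCh G r j v p = ∅) : lam r (j + 2) v ≤ alp G r j v p := by
  have hS : Spl G r j v p := by simpa [Nd] using hp
  obtain ⟨x, y, hx, hy, hax, hay⟩ := hS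
  have hno : ∀ c ∈ Ch r j p, ¬ Spl G r (j + 1) v c := by
    intro c hc hsp
    have : c ∈ SCh G r j v p := by
      simp only [SCh, Finset.mem_filter]
      exact ⟨hc, hsp⟩
    rw [hl] at this
    simp at this
  have hcx := rep_mem h j x
  have hcy := rep_mem h j y
  rw [hx] at hcx
  rw [hy] at hcy
  have hax' : G.Adj v (r (j + 1) x) := by
    by_contra hcon
    exact hno _ hcx ⟨x, r (j + 1) x, rfl, h.hid _ _, hax, hcon⟩
  have hay' : ¬ G.Adj v (r (j + 1) y) := by
    intro hcon
    exact hno _ hcy ⟨r (j + 1) y, y, h.hid _ _, rfl, hcon, hay⟩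
  have hpx : r j (r (j + 1) x) = p := by
    have := hcx
    simp only [Ch, Finset.mem_filter, Finset.mem_univ, true_and] at this
    exact this.2
  have hpy : r j (r (j + 1) y) = p := by
    have := hcy
    simp only [Ch, Finset.mem_filter, Finset.mem_univ, true_and] at this
    exact this.2
  refine logb_mono_nat (sz_pos _ _) (Finset.card_le_card fun v' hv' => ?_)
  simp only [Finset.mem_filter, Finset.mem_univ, true_and] at hv' ⊢
  refine ⟨h.hnest j _ _ (h.hnest (j + 1) _ _ hv'), r (j + 1) x, r (j + 1) y, hpx, hpy, ?_, ?_⟩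
  · exact (h.hRep (j + 1) v' v hv' x).mpr hax'
  · exact fun hcon => hay' ((h.hRep (j + 1) v' v hv' y).mp hcon)

/-- own codeword: `Good.b1` for the context `(p, r j v)` and the child `r (j+1) v` -/
lemma own_le (h : Chain G r L D M) {idx : ℕ → V → V → V → ℕ} (hg : Good G r M D idx) (j : ℕ)
    (v p : V) :
    Real.logb 2 ((idx j p (r j v) (r (j + 1) v) : ℝ) + 1) ≤ 2 + lam r j v - lam r (j + 1) v := by
  have h1 := hg.b1 j p (r j v) (r (j + 1) v) (rep_mem h j v)
  have hi : ((idx j p (r j v) (r (j + 1) v) : ℝ) + 1) ≠ 0 := by positivity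
  have hb0 : ((sz r (j + 1) (r (j + 1) v) : ℕ) : ℝ) ≠ 0 := by
    have := sz_pos (r := r) (j + 1) v
    positivity
  have hs0 : ((sz r j (r j v) : ℕ) : ℝ) ≠ 0 := by
    have := sz_pos (r := r) j v
    positivity
  have h2 := logb_mono_nat (Nat.mul_pos (Nat.succ_pos _) (sz_pos (r := r) (j + 1) v)) h1
  push_cast at h2
  rw [Real.logb_mul hi hb0, Real.logb_mul (by norm_num) hs0] at h2
  have h3 : Real.logb 2 3 ≤ 2 := by
    rw [Real.logb_le_iff_le_rpow (by norm_num) (by norm_num)]
    norm_num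
  unfold lam
  linarith

/-- exceptional codeword: `Exc` depends only on the class of `v` at level `j+2` (by `hRep (j+1)`, as
`c = r (j+1) c` for children `c`), so `A3 j (r j v) p c ≥ sz (j+2) (r (j+2) v)`; use `Good.b3` and `card_Exc`
(which gives `M ≥ 1`). -/
lemma exc_le (h : Chain G r L D M) {idx : ℕ → V → V → V → ℕ} (hg : Good G r M D idx) (j : ℕ)
    (v p c : V) (hc : c ∈ Exc G r M j v p) :
    Real.logb 2 ((idx j (r j v) p c : ℝ) + 1) ≤ 2 + M + lam r j v - lam r (j + 2) v := by
  have hcCh : c ∈ Ch r j p := (Finset.mem_filter.mp hc).1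
  have hM : 1 ≤ M := le_trans (Finset.card_pos.mpr ⟨c, hc⟩) (card_Exc h j v p)
  have hExc : ∀ v', r (j + 2) v' = r (j + 2) v → Exc G r M j v' p = Exc G r M j v p := by
    intro v' hv'
    have hadj : ∀ c' ∈ Ch r j p, (G.Adj v' c' ↔ G.Adj v c') := by
      intro c' hc'
      simp only [Ch, Finset.mem_filter, Finset.mem_univ, true_and] at hc'
      have := h.hRep (j + 1) v' v hv' c'
      rwa [hc'.1] at this
    have hbit : bit G r M j v' p = bit G r M j v p := by
      have : (Ch r j p).filter (fun c => ¬ G.Adj v' c) = (Ch r j p).filter (fun c => ¬ G.Adj v c) :=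
        Finset.filter_congr fun c' hc' => not_congr (hadj c' hc')
      unfold bit
      rw [this]
    unfold Exc
    refine Finset.filter_congr fun c' hc' => ?_
    rw [hbit, hadj c' hc']
  refine log_aux (sz_pos (r := r) (j + 2) v) (Finset.card_le_card fun v' hv' => ?_) hM
    (sz_pos (r := r) j v) (hg.b3 j (r j v) p c hcCh)
  simp only [Finset.mem_filter, Finset.mem_univ, true_and] at hv' ⊢
  exact ⟨h.hnest j _ _ (h.hnest (j + 1) _ _ hv'), by rw [hExc v' hv']; exact hc⟩

/-- tree codeword: `A2 j (r j v) c ≥ AA (j+1) (r (j+1) v) c ≥ 1` and `Good.b2`; `D ≥ 1` by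
`card_Nd`; `logb 2 D ≤ D`. -/
lemma tree_le (h : Chain G r L D M) {idx : ℕ → V → V → V → ℕ} (hg : Good G r M D idx) (j : ℕ)
    (v p c : V) (hp : p ∈ Nd G r j v) (hc : c ∈ SCh G r j v p) :
    Real.logb 2 ((idx j (r j v) p c : ℝ) + 1) ≤ 2 + D + alp G r j v p - alp G r (j + 1) v c := by
  have hcCh : c ∈ Ch r j p := (Finset.mem_filter.mp hc).1
  have hcS : Spl G r (j + 1) v c := (Finset.mem_filter.mp hc).2
  have hD : 1 ≤ D := le_trans (Finset.card_pos.mpr ⟨p, hp⟩) (card_Nd h j v)
  have hcN : c ∈ Nd G r (j + 1) v := by simpa [Nd] using hcS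
  refine log_aux (AA_pos (j + 1) v c hcN) (Finset.card_le_card fun v' hv' => ?_) hD
    (AA_pos j v p hp) (hg.b2 j (r j v) p c hcCh)
  simp only [Finset.mem_filter, Finset.mem_univ, true_and] at hv' ⊢
  exact ⟨h.hnest j _ _ hv'.1, hv'.2⟩

end Pool.Agent.ILab
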