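import Mathlib
import Pool.Agent.ILab.LabDef

/-! # Level by level recursion for the total length -/

namespace Pool.Agent.ILab

open Classical Finset

variable {V : Type} [Fintype V] {G : SimpleGraph V} {r : ℕ → V → V} {L D M : ℕ}

/-- nobody splits a class of level `L` -/
lemma Nd_last (h : Chain G r L D M) (v : V) : Nd G r L v = ∅ := by
  rw [Nd, Finset.filter_eq_empty_iff]
  rintro p - ⟨x, y, hx, hy, h1, h2⟩
  exact h2 ((h.hL v x y (hx.trans hy.symm)).1 h1)

lemma Spl_fix (h : Chain G r L D M) (j : ℕ) (v c : V) (hc : Spl G r j v c) : r j c = c := by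
  obtain ⟨x, y, hx, hy, h1, h2⟩ := hc
  rw [← hx]
  exact h.hid j x

lemma Spl_parent (h : Chain G r L D M) (j : ℕ) (v c : V) (hc : Spl G r (j + 1) v c) :
    Spl G r j v (r j c) := by
  have hf := Spl_fix h (j + 1) v c hc
  obtain ⟨x, y, hx, hy, h1, h2⟩ := hc
  refine ⟨x, y, h.hnest j x c (hx.trans hf.symm), h.hnest j y c (hy.trans hf.symm), h1, h2⟩

lemma mem_SCh_parent (h : Chain G r L D M) (j : ℕ) (v c : V) (hc : c ∈ Nd G r (j + 1) v) :
    r j c ∈ Nd G r j v ∧ c ∈ SCh G r j v (r j c) := by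
  have hc' : Spl G r (j + 1) v c := by simpa [Nd] using hc
  refine ⟨?_, ?_⟩
  · simpa [Nd] using Spl_parent h j v c hc'
  · simp only [SCh, Ch, Finset.mem_filter, Finset.mem_univ, true_and]
    exact ⟨⟨Spl_fix h (j + 1) v c hc', trivial⟩, hc'⟩

lemma SCh_eq_filter (h : Chain G r L D M) (j : ℕ) (v p : V) :
    SCh G r j v p = (Nd G r (j + 1) v).filter (fun c => r j c = p) := by
  ext c
  simp only [SCh, Ch, Nd, Finset.mem_filter, Finset.mem_univ, true_and]
  constructor
  · rintro ⟨⟨h1, h2⟩, h3⟩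
    exact ⟨h3, h2⟩
  · rintro ⟨h3, h2⟩
    exact ⟨⟨Spl_fix h (j + 1) v c h3, h2⟩, h3⟩

/-- the classes of level `j+1` split by `v` are exactly the split children of the classes of level
`j` split by `v` (each `c` in `Nd (j+1) v` satisfies `r (j+1) c = c` by `hid`, lies in `Ch j (r j c)` and
`r j c ∈ Nd j v` by `hnest`; conversely the parent of `c ∈ SCh j v p` is `r j c = p`). -/
lemma sum_Nd_succ (h : Chain G r L D M) (j : ℕ) (v : V) (f : V → V → ℝ) :
    ∑ p ∈ Nd G r j v, ∑ c ∈ SCh G r j v p, f p c = ∑ c ∈ Nd G r (j + 1) v, f (r j c) c := by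
  rw [← Finset.sum_fiberwise_of_maps_to (s := Nd G r (j + 1) v) (t := Nd G r j v)
    (g := fun c => r j c) (fun c hc => (mem_SCh_parent h j v c hc).1) (fun c => f (r j c) c)]
  refine Finset.sum_congr rfl fun p _ => ?_
  rw [SCh_eq_filter h j v p]
  refine Finset.sum_congr rfl fun c hc => ?_
  rw [(Finset.mem_filter.1 hc).2]

/-- length of one label: sum of the lengths of its parts (`eProd`, `eList_length`, `Finset.sum_toList`
or `Finset.sum_map_toList`). -/
lemma len_mk (idx : ℕ → V → V → V → ℕ) (k j : ℕ) (v p : V) :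
    ((encLab (k + 1) (mk G r M idx (k + 1) v j p)).length : ℝ) =
      3 + (eNat (idx j p (r j v) (r (j + 1) v))).length
      + ∑ c ∈ Exc G r M j v p, ((eNat (idx j (r j v) p c)).length + 1 : ℝ)
      + ∑ c ∈ SCh G r j v p, ((eNat (idx j (r j v) p c)).length + 1
          + (encLab k (mk G r M idx k v (j + 1) c)).length : ℝ) := by
  have e1 : encLab (k + 1) (mk G r M idx (k + 1) v j p) =
      eBool (bit G r M j v p) ++ (eNat (idx j p (r j v) (r (j + 1) v)) ++
        (eList eNat ((Exc G r M j v p).toList.map (idx j (r j v) p)) ++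
          eList (eProd eNat (encLab k)) ((SCh G r j v p).toList.map
            (fun c => (idx j (r j v) p c, mk G r M idx k v (j + 1) c))))) := rfl
  rw [e1]
  simp only [List.length_append, eList_length, List.map_map, Finset.sum_map_toList, eBool,
    List.length_singleton, Function.comp_def, eProd]
  push_cast
  have e2 : ∑ c ∈ SCh G r j v p, ((eNat (idx j (r j v) p c)).length + 1
          + (encLab k (mk G r M idx k v (j + 1) c)).length : ℝ) =
      ∑ c ∈ SCh G r j v p, ((eNat (idx j (r j v) p c)).length +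
          (encLab k (mk G r M idx k v (j + 1) c)).length + 1 : ℝ) :=
    Finset.sum_congr rfl fun c _ => by ring
  rw [e2]
  ring

/-- total length of the labels at all nodes of level `j` -/
noncomputable def tot (G : SimpleGraph V) (r : ℕ → V → V) (M : ℕ) (idx : ℕ → V → V → V → ℕ)
    (k j : ℕ) (v : V) : ℝ := ∑ p ∈ Nd G r j v, ((encLab k (mk G r M idx k v j p)).length : ℝ)

lemma tot_succ (h : Chain G r L D M) (idx : ℕ → V → V → V → ℕ) (k j : ℕ) (v : V) :
    tot G r M idx (k + 1) j v =
      ∑ p ∈ Nd G r j v, (3 + (eNat (idx j p (r j v) (r (j + 1) v))).length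
        + ∑ c ∈ Exc G r M j v p, ((eNat (idx j (r j v) p c)).length + 1 : ℝ))
      + ∑ c ∈ Nd G r (j + 1) v, ((eNat (idx j (r j v) (r j c) c)).length + 1 : ℝ)
      + tot G r M idx k (j + 1) v := by
  unfold tot
  rw [← sum_Nd_succ h j v (fun p c => ((eNat (idx j (r j v) p c)).length + 1 : ℝ)),
    ← sum_Nd_succ h j v (fun _ c => ((encLab k (mk G r M idx k v (j + 1) c)).length : ℝ)),
    ← Finset.sum_add_distrib, ← Finset.sum_add_distrib]
  refine Finset.sum_congr rfl fun p _ => ?_
  rw [len_mk, add_assoc _ (∑ c ∈ SCh G r j v p, _) (∑ c ∈ SCh G r j v p, _),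
    ← Finset.sum_add_distrib]

end Pool.Agent.ILab
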