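import Mathlib
import Pool.Agent.ILab.LabFact
import Pool.Agent.ILab.LabRec

/-! # The total length of a label -/

namespace Pool.Agent.ILab

open Classical Finset

variable {V : Type} [Fintype V] {G : SimpleGraph V} {r : ℕ → V → V} {L D M : ℕ}

/-- sum of the deficiencies over the split children -/
lemma def_ge (h : Chain G r L D M) (j : ℕ) (v : V) :
    ∑ p ∈ Nd G r j v, (lam r j v - alp G r j v p) - D * (lam r j v - lam r (j + 2) v) ≤
      ∑ c ∈ Nd G r (j + 1) v, (lam r j v - alp G r j v (r j c)) := by
  have hanti : 0 ≤ lam r j v - lam r (j + 2) v := by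
    have h1 := lam_anti h j v
    have h2 := lam_anti h (j + 1) v
    have h3 : j + 1 + 1 = j + 2 := rfl
    rw [h3] at h2
    linarith
  have hD : ((Nd G r j v).card : ℝ) ≤ D := by exact_mod_cast card_Nd h j v
  rw [← sum_Nd_succ h j v (fun p _ => lam r j v - alp G r j v p)]
  have key : ∀ p ∈ Nd G r j v, (lam r j v - alp G r j v p) - (lam r j v - lam r (j + 2) v) ≤
      ∑ c ∈ SCh G r j v p, (lam r j v - alp G r j v p) := by
    intro p hp
    have h0 := alp_le j v p hp
    rw [Finset.sum_const, nsmul_eq_mul]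
    rcases (SCh G r j v p).eq_empty_or_nonempty with he | hne
    · have := leaf_le h j v p hp he
      rw [he]; simp; linarith
    · have h1 : (1 : ℝ) ≤ (SCh G r j v p).card := by
        exact_mod_cast Finset.card_pos.2 hne
      nlinarith
  calc _ ≤ ∑ p ∈ Nd G r j v, (lam r j v - alp G r j v p)
        - (Nd G r j v).card * (lam r j v - lam r (j + 2) v) := by
        have := mul_le_mul_of_nonneg_right hD hanti
        linarith
    _ = ∑ p ∈ Nd G r j v, ((lam r j v - alp G r j v p) - (lam r j v - lam r (j + 2) v)) := by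
        rw [Finset.sum_sub_distrib (s := Nd G r j v) (f := fun p => lam r j v - alp G r j v p),
          Finset.sum_const, nsmul_eq_mul]
    _ ≤ _ := Finset.sum_le_sum key

/-- Downward induction on the level.  With `l j = lam r j v` and
`U j = ∑ p ∈ Nd j v, (l j - alp j v p) ≥ 0` the codewords of the nodes of level `j+1` cost at most
`D * (2 * (2 + D) + 4) + 2 * (U (j+1) - U j) + 4 * D * (l j - l (j+2))`. -/
theorem tot_le (h : Chain G r L D M) {idx : ℕ → V → V → V → ℕ} (hg : Good G r M D idx) (v : V) :
    ∀ k j, j + k = L → tot G r M idx k j v ≤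
      (20 * (D + 1) ^ 2 * (M + 1) ^ 2) * k
      + (20 * (D + 1) * (M + 1)) * (lam r j v + lam r (j + 1) v)
      - 2 * ∑ p ∈ Nd G r j v, (lam r j v - alp G r j v p) := by
  have hD0 : (0 : ℝ) ≤ D := Nat.cast_nonneg _
  have hM0 : (0 : ℝ) ≤ M := Nat.cast_nonneg _
  intro k
  induction k with
  | zero =>
    intro j hj
    simp only [Nat.add_zero] at hj
    subst hj
    have h1 := lam_nonneg (r := r) j v
    have h2 := lam_nonneg (r := r) (j + 1) v
    simp only [tot, Nd_last h v, Finset.sum_empty]
    have : 0 ≤ (20 * ((D : ℝ) + 1) * (M + 1)) * (lam r j v + lam r (j + 1) v) := by positivity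
    simp only [Nat.cast_zero, mul_zero, zero_add, sub_zero]
    exact this
  | succ k ih =>
    intro j hj
    have ih' := ih (j + 1) (by omega)
    rw [tot_succ h]
    have e3 : j + 1 + 1 = j + 2 := rfl
    rw [e3] at ih'
    have l1 := lam_anti h j v
    have l2 := lam_anti h (j + 1) v
    rw [e3] at l2
    set a := lam r j v with ha
    set b := lam r (j + 1) v with hb
    set c := lam r (j + 2) v with hc
    -- first sum
    have s1 : ∑ p ∈ Nd G r j v, (3 + ((eNat (idx j p (r j v) (r (j + 1) v))).length : ℝ)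
        + ∑ c ∈ Exc G r M j v p, ((eNat (idx j (r j v) p c)).length + 1 : ℝ)) ≤
        D * (10 + 2 * (a - b) + M * (8 + 2 * M + 2 * (a - c))) := by
      have hp1 : ∀ p ∈ Nd G r j v, (3 + ((eNat (idx j p (r j v) (r (j + 1) v))).length : ℝ)
          + ∑ c ∈ Exc G r M j v p, ((eNat (idx j (r j v) p c)).length + 1 : ℝ)) ≤
          10 + 2 * (a - b) + M * (8 + 2 * M + 2 * (a - c)) := by
        intro p _
        have o1 := own_le h hg j v p
        have o2 := eNat_length (idx j p (r j v) (r (j + 1) v))
        have o3 : ∑ c ∈ Exc G r M j v p, ((eNat (idx j (r j v) p c)).length + 1 : ℝ) ≤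
            M * (8 + 2 * M + 2 * (a - c)) := by
          have hcard : ((Exc G r M j v p).card : ℝ) ≤ M := by exact_mod_cast card_Exc h j v p
          calc _ ≤ ∑ _c ∈ Exc G r M j v p, (8 + 2 * M + 2 * (a - c)) := by
                refine Finset.sum_le_sum (fun x hx => ?_)
                have o4 := exc_le h hg j v p x hx
                have o5 := eNat_length (idx j (r j v) p x)
                linarith
            _ = (Exc G r M j v p).card * (8 + 2 * M + 2 * (a - c)) := by
                rw [Finset.sum_const, nsmul_eq_mul]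
            _ ≤ _ := mul_le_mul_of_nonneg_right hcard (by linarith)
        linarith
      have hcard : ((Nd G r j v).card : ℝ) ≤ D := by exact_mod_cast card_Nd h j v
      calc _ ≤ ∑ _p ∈ Nd G r j v, (10 + 2 * (a - b) + M * (8 + 2 * M + 2 * (a - c))) :=
            Finset.sum_le_sum hp1
        _ = (Nd G r j v).card * (10 + 2 * (a - b) + M * (8 + 2 * M + 2 * (a - c))) := by
            rw [Finset.sum_const, nsmul_eq_mul]
        _ ≤ _ := by
            apply mul_le_mul_of_nonneg_right hcard
            have : 0 ≤ M * (8 + 2 * M + 2 * (a - c)) := mul_nonneg hM0 (by linarith)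
            linarith
    -- second sum
    have s2 : ∑ x ∈ Nd G r (j + 1) v, ((eNat (idx j (r j v) (r j x) x)).length + 1 : ℝ) ≤
        D * (8 + 2 * D + 2 * (a - b))
        + 2 * ∑ x ∈ Nd G r (j + 1) v, (b - alp G r (j + 1) v x)
        - 2 * ∑ x ∈ Nd G r (j + 1) v, (a - alp G r j v (r j x)) := by
      have hp2 : ∀ x ∈ Nd G r (j + 1) v, ((eNat (idx j (r j v) (r j x) x)).length + 1 : ℝ) ≤
          (8 + 2 * D + 2 * (a - b)) + 2 * (b - alp G r (j + 1) v x)
            - 2 * (a - alp G r j v (r j x)) := by
        intro x hx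
        obtain ⟨m1, m2⟩ := mem_SCh_parent h j v x hx
        have o1 := tree_le h hg j v (r j x) x m1 m2
        have o2 := eNat_length (idx j (r j v) (r j x) x)
        linarith
      have hcard : ((Nd G r (j + 1) v).card : ℝ) ≤ D := by exact_mod_cast card_Nd h (j + 1) v
      calc _ ≤ ∑ x ∈ Nd G r (j + 1) v, ((8 + 2 * D + 2 * (a - b))
              + 2 * (b - alp G r (j + 1) v x) - 2 * (a - alp G r j v (r j x))) :=
            Finset.sum_le_sum hp2
        _ = (Nd G r (j + 1) v).card * (8 + 2 * D + 2 * (a - b))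
              + 2 * ∑ x ∈ Nd G r (j + 1) v, (b - alp G r (j + 1) v x)
              - 2 * ∑ x ∈ Nd G r (j + 1) v, (a - alp G r j v (r j x)) := by
            rw [Finset.sum_sub_distrib, Finset.sum_add_distrib, Finset.sum_const, nsmul_eq_mul,
              Finset.mul_sum, Finset.mul_sum]
        _ ≤ _ := by
            have := mul_le_mul_of_nonneg_right hcard
              (show 0 ≤ 8 + 2 * (D : ℝ) + 2 * (a - b) by linarith)
            linarith
    have s3 := def_ge h j v
    rw [← ha, ← hc] at s3
    have hDM : (0 : ℝ) ≤ D * M := mul_nonneg hD0 hM0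
    have hac : 0 ≤ a - c := by linarith
    have hab : a - b ≤ a - c := by linarith
    have t1 : (D : ℝ) * (10 + 2 * (a - b) + M * (8 + 2 * M + 2 * (a - c)))
        + (D * (8 + 2 * D + 2 * (a - b)) + 2 * (D * (a - c))) ≤
        20 * (D + 1) ^ 2 * (M + 1) ^ 2 + 20 * (D + 1) * (M + 1) * (a - c) := by
      have u1 : (D : ℝ) * (10 + M * (8 + 2 * M)) + D * (8 + 2 * D) ≤
          20 * (D + 1) ^ 2 * (M + 1) ^ 2 := by
        have := mul_nonneg hDM hM0
        have := mul_nonneg hDM hD0
        have := mul_nonneg hD0 hD0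
        have := mul_nonneg hM0 hM0
        have := mul_nonneg (mul_nonneg hDM hD0) hM0
        have e : 20 * ((D : ℝ) + 1) ^ 2 * (M + 1) ^ 2 =
            20 * (D * M * D * M) + 40 * (D * M * D) + 20 * (D * D) + 40 * (D * M * M) + 80 * (D * M)
              + 40 * D + 20 * (M * M) + 40 * M + 20 := by ring
        rw [e]
        nlinarith
      have u2 : (D : ℝ) * (a - b) ≤ D * (a - c) := mul_le_mul_of_nonneg_left hab hD0
      have u3 : (D : ℝ) * (2 * (a - c)) * 3 + D * M * (2 * (a - c)) ≤
          20 * (D + 1) * (M + 1) * (a - c) := by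
        have : 0 ≤ (D * M) * (a - c) := mul_nonneg hDM hac
        have : 0 ≤ D * (a - c) := mul_nonneg hD0 hac
        have : 0 ≤ M * (a - c) := mul_nonneg hM0 hac
        nlinarith
      nlinarith
    have t2 : (20 * ((D : ℝ) + 1) * (M + 1)) * (b + c) + 20 * (D + 1) * (M + 1) * (a - c) =
        (20 * (D + 1) * (M + 1)) * (a + b) := by ring
    push_cast
    linarith
end Pool.Agent.ILab
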