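import Mathlib

/-!
# Ranking by decreasing weight (MP_e2b059_co, part B)

For nonnegative weights on a finite set there is an injective numbering `idx ≥ 1` with
`idx x * w x ≤ ∑ w`; this replaces Kraft's inequality.
-/

set_option autoImplicit false

namespace Pool.Agent.ILab

open Finset

theorem exists_rank_aux {ι : Type*} [DecidableEq ι] (w : ι → ℝ) (n : ℕ) :
    ∀ S : Finset ι, S.card = n → (∀ x ∈ S, 0 ≤ w x) →
      ∃ idx : ι → ℕ, Set.InjOn idx S ∧
        ∀ x ∈ S, 1 ≤ idx x ∧ idx x ≤ S.card ∧ (idx x : ℝ) * w x ≤ ∑ y ∈ S, w y := by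
  induction n with
  | zero =>
    intro S hS _
    rw [Finset.card_eq_zero] at hS
    subst hS
    exact ⟨fun _ => 0, by simp, by simp⟩
  | succ n ih =>
    intro S hS hw
    have hne : S.Nonempty := by
      rw [← Finset.card_pos]; omega
    obtain ⟨m, hm, hmin⟩ := S.exists_min_image w hne
    have hcard : (S.erase m).card = n := by
      rw [Finset.card_erase_of_mem hm]; omega
    obtain ⟨idx, hinj, hidx⟩ := ih (S.erase m) hcard
      (fun x hx => hw x (Finset.mem_of_mem_erase hx))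
    refine ⟨fun x => if x = m then S.card else idx x, ?_, ?_⟩
    · intro x hx y hy hxy
      simp only at hxy
      by_cases h1 : x = m
      · by_cases h2 : y = m
        · rw [h1, h2]
        · exfalso
          rw [if_pos h1, if_neg h2] at hxy
          have h3 := (hidx y (Finset.mem_erase.2 ⟨h2, hy⟩)).2.1
          omega
      · by_cases h2 : y = m
        · exfalso
          rw [if_neg h1, if_pos h2] at hxy
          have h3 := (hidx x (Finset.mem_erase.2 ⟨h1, hx⟩)).2.1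
          omega
        · rw [if_neg h1, if_neg h2] at hxy
          exact hinj (Finset.mem_coe.2 (Finset.mem_erase.2 ⟨h1, hx⟩))
            (Finset.mem_coe.2 (Finset.mem_erase.2 ⟨h2, hy⟩)) hxy
    · intro x hx
      by_cases h1 : x = m
      · simp only [if_pos h1]
        refine ⟨by omega, le_rfl, ?_⟩
        rw [h1, ← nsmul_eq_mul]
        exact Finset.card_nsmul_le_sum S w (w m) hmin
      · simp only [if_neg h1]
        obtain ⟨h2, h3, h4⟩ := hidx x (Finset.mem_erase.2 ⟨h1, hx⟩)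
        refine ⟨h2, by omega, h4.trans ?_⟩
        exact Finset.sum_le_sum_of_subset_of_nonneg (Finset.erase_subset m S)
          (fun i hi _ => hw i hi)

/-- numbering in decreasing order of weight -/
theorem exists_rank {ι : Type*} (S : Finset ι) (w : ι → ℝ) (hw : ∀ x ∈ S, 0 ≤ w x) :
    ∃ idx : ι → ℕ, Set.InjOn idx S ∧
      ∀ x ∈ S, 1 ≤ idx x ∧ (idx x : ℝ) * w x ≤ ∑ y ∈ S, w y := by
  classical
  obtain ⟨idx, h1, h2⟩ := exists_rank_aux w S.card S rfl hw
  exact ⟨idx, h1, fun x hx => ⟨(h2 x hx).1, (h2 x hx).2.2⟩⟩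

theorem rank_bound_aux (k : ℕ) (a b c d : ℝ) (w W : ℕ) (hwW : w ≤ W)
    (ha : 0 ≤ a) (hb : 0 ≤ b) (hc : c = (w : ℝ) / W) (hd : d ≤ 3)
    (h : (k : ℝ) * (a + b + c) ≤ d) : k * w ≤ 3 * W := by
  rcases Nat.eq_zero_or_pos W with h0 | h0
  · have : w = 0 := by omega
    simp [this]
  · have hW : (0 : ℝ) < W := by exact_mod_cast h0
    have h1 : (k : ℝ) * c ≤ 3 := by
      have h2 : (0 : ℝ) ≤ (k : ℝ) * (a + b) := by positivity
      nlinarith
    rw [hc, ← mul_div_assoc, div_le_iff₀ hW] at h1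
    exact_mod_cast h1

/-- one numbering which is good for three families of weights -/
theorem exists_idx {α : Type*} [DecidableEq α] (S : Finset α) (w1 w2 w3 : α → ℕ) (W1 W2 W3 : ℕ)
    (h1 : ∑ c ∈ S, w1 c ≤ W1) (h2 : ∑ c ∈ S, w2 c ≤ W2) (h3 : ∑ c ∈ S, w3 c ≤ W3) :
    ∃ idx : α → ℕ, Set.InjOn idx S ∧ ∀ c ∈ S, (idx c + 1) * w1 c ≤ 3 * W1 ∧
      (idx c + 1) * w2 c ≤ 3 * W2 ∧ (idx c + 1) * w3 c ≤ 3 * W3 := by
  have hq : ∀ (w : α → ℕ) (W : ℕ), ∑ c ∈ S, w c ≤ W → ∑ c ∈ S, (w c : ℝ) / W ≤ 1 := by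
    intro w W h
    rw [← Finset.sum_div]
    refine div_le_one_of_le₀ ?_ (Nat.cast_nonneg W)
    exact_mod_cast h
  obtain ⟨idx, hinj, hidx⟩ := exists_rank S
    (fun c => (w1 c : ℝ) / W1 + (w2 c : ℝ) / W2 + (w3 c : ℝ) / W3) (fun c _ => by positivity)
  have hsum : ∑ c ∈ S, ((w1 c : ℝ) / W1 + (w2 c : ℝ) / W2 + (w3 c : ℝ) / W3) ≤ 3 := by
    rw [Finset.sum_add_distrib, Finset.sum_add_distrib]
    linarith [hq w1 W1 h1, hq w2 W2 h2, hq w3 W3 h3]
  refine ⟨fun c => idx c - 1, ?_, ?_⟩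
  · intro x hx y hy hxy
    have hx1 := (hidx x hx).1
    have hy1 := (hidx y hy).1
    simp only at hxy
    exact hinj hx hy (by omega)
  · intro c hc
    obtain ⟨hc1, hc2⟩ := hidx c hc
    have e : idx c - 1 + 1 = idx c := by omega
    simp only [e]
    have n1 : (0 : ℝ) ≤ (w1 c : ℝ) / W1 := by positivity
    have n2 : (0 : ℝ) ≤ (w2 c : ℝ) / W2 := by positivity
    have n3 : (0 : ℝ) ≤ (w3 c : ℝ) / W3 := by positivity
    have l1 : w1 c ≤ W1 := (Finset.single_le_sum (fun i _ => Nat.zero_le (w1 i)) hc).trans h1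
    have l2 : w2 c ≤ W2 := (Finset.single_le_sum (fun i _ => Nat.zero_le (w2 i)) hc).trans h2
    have l3 : w3 c ≤ W3 := (Finset.single_le_sum (fun i _ => Nat.zero_le (w3 i)) hc).trans h3
    refine ⟨?_, ?_, ?_⟩
    · exact rank_bound_aux _ _ _ _ _ (w1 c) W1 l1 n2 n3 rfl hsum
        (by have e : (w2 c : ℝ) / W2 + (w3 c : ℝ) / W3 + (w1 c : ℝ) / W1 =
              (w1 c : ℝ) / W1 + (w2 c : ℝ) / W2 + (w3 c : ℝ) / W3 := by ring
            rw [e]; exact hc2)
    · exact rank_bound_aux _ _ _ _ _ (w2 c) W2 l2 n1 n3 rfl hsum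
        (by have e : (w1 c : ℝ) / W1 + (w3 c : ℝ) / W3 + (w2 c : ℝ) / W2 =
              (w1 c : ℝ) / W1 + (w2 c : ℝ) / W2 + (w3 c : ℝ) / W3 := by ring
            rw [e]; exact hc2)
    · exact rank_bound_aux _ _ _ _ _ (w3 c) W3 l3 n1 n2 rfl hsum hc2

end Pool.Agent.ILab
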