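import Mathlib
import Pool.Agent.ILab.LabDec
import Pool.Agent.ILab.LabLen
import Pool.Agent.ILab.Rank

/-! # Labels from a chain of partitions -/

namespace Pool.Agent.ILab

open Classical Finset

variable {V : Type} [Fintype V] {G : SimpleGraph V} {r : ℕ → V → V} {L D M : ℕ}

/-- good numberings exist -/
theorem exists_numbering (h : Chain G r L D M) :
    ∃ idx : ℕ → V → V → V → ℕ, Good G r M D idx := by
  have hex : ∀ (j : ℕ) (ρ p : V), ∃ f : V → ℕ, Set.InjOn f (Ch r j p) ∧
      ∀ c ∈ Ch r j p, (f c + 1) * sz r (j + 1) c ≤ 3 * sz r j p ∧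
        (f c + 1) * A2 G r j ρ c ≤ 3 * (D * AA G r j ρ p) ∧
        (f c + 1) * A3 G r M j ρ p c ≤ 3 * (M * sz r j ρ) := by
    intro j ρ p
    exact exists_idx (Ch r j p) (fun c => sz r (j + 1) c) (fun c => A2 G r j ρ c)
      (fun c => A3 G r M j ρ p c) _ _ _ (sum_sz h j p) (sum_A2 h j ρ p) (sum_A3 h j ρ p)
  choose f hf using hex
  exact ⟨f, fun j ρ p => (hf j ρ p).1, fun j ρ p c hc => ((hf j ρ p).2 c hc).1,
    fun j ρ p c hc => ((hf j ρ p).2 c hc).2.1, fun j ρ p c hc => ((hf j ρ p).2 c hc).2.2⟩

/-- The decoder on bit strings: `[false]` is the label of an isolated vertex. -/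
def Dec (L : ℕ) (l l' : List Bool) : Prop :=
  ∃ t t' : Lab L, l = true :: encLab L t ∧ l' = true :: encLab L t' ∧ decLab L t t'

/-- the constant in the length bound -/
def KB (D M : ℕ) : ℕ := 60 * (D + 1) ^ 2 * (M + 1) ^ 2

theorem labels_of_chain (h : Chain G r L D M) :
    ∃ lab : V → List Bool,
      (∀ v, ((lab v).length : ℝ) ≤ KB D M * (L + Real.logb 2 (Fintype.card V) + 1)) ∧
      ∀ u v, G.Adj u v ↔ Dec L (lab u) (lab v) := by
  obtain ⟨idx, hg⟩ := exists_numbering h
  have hspl : ∀ u v, G.Adj u v → Spl G r 0 u (r 0 v) := by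
    intro u v huv
    exact ⟨v, u, rfl, h.h0 _ _, huv, G.loopless.irrefl u⟩
  refine ⟨fun v => if Spl G r 0 v (r 0 v) then true :: encLab L (mk G r M idx L v 0 (r 0 v))
    else [false], ?_, ?_⟩
  · intro v
    have hc : (1 : ℝ) ≤ Fintype.card V := by
      exact_mod_cast Fintype.card_pos_iff.2 ⟨v⟩
    have hl : 0 ≤ Real.logb 2 (Fintype.card V) := Real.logb_nonneg (by norm_num) hc
    have hK1 : (1 : ℝ) ≤ KB D M := by
      have : 1 ≤ KB D M := by
        unfold KB
        have : 0 < 60 * (D + 1) ^ 2 * (M + 1) ^ 2 := by positivity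
        exact this
      exact_mod_cast this
    have hL0 : (0 : ℝ) ≤ L := by positivity
    beta_reduce
    split_ifs with hs
    · have h1 := tot_le h hg v L 0 (by simp)
      have h2 : ((encLab L (mk G r M idx L v 0 (r 0 v))).length : ℝ) ≤ tot G r M idx L 0 v := by
        unfold tot
        refine Finset.single_le_sum (f := fun p => ((encLab L (mk G r M idx L v 0 p)).length : ℝ))
          (fun p _ => by positivity) ?_
        simp [Nd, hs]
      have h3 : 0 ≤ ∑ p ∈ Nd G r 0 v, (lam r 0 v - alp G r 0 v p) :=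
        Finset.sum_nonneg (fun p hp => by linarith [alp_le 0 v p hp])
      have h4 := lam_le_card (r := r) 0 v
      have h5 := lam_le_card (r := r) 1 v
      have h6 : (20 * ((D : ℝ) + 1) * (M + 1)) ≤ 20 * (D + 1) ^ 2 * (M + 1) ^ 2 := by
        have : (1 : ℝ) ≤ (D + 1) * (M + 1) := by
          nlinarith [Nat.cast_nonneg (α := ℝ) D, Nat.cast_nonneg (α := ℝ) M,
            mul_nonneg (Nat.cast_nonneg (α := ℝ) D) (Nat.cast_nonneg (α := ℝ) M)]
        nlinarith [Nat.cast_nonneg (α := ℝ) D, Nat.cast_nonneg (α := ℝ) M, mul_self_nonneg ((D + 1) * (M + 1) - 1 : ℝ)]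
      have h7 : (KB D M : ℝ) = 60 * (D + 1) ^ 2 * (M + 1) ^ 2 := by
        unfold KB; push_cast; ring
      have h8 : ((true :: encLab L (mk G r M idx L v 0 (r 0 v))).length : ℝ) =
          (encLab L (mk G r M idx L v 0 (r 0 v))).length + 1 := by
        simp
      rw [h8, h7]
      have h9 : (0 : ℝ) ≤ (D + 1) ^ 2 * (M + 1) ^ 2 := by positivity
      have h10 : (1 : ℝ) ≤ 60 * (D + 1) ^ 2 * (M + 1) ^ 2 := by rw [← h7]; exact hK1
      have h11 : (0 : ℝ) ≤ 20 * ((D : ℝ) + 1) * (M + 1) := by positivity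
      have h12 : (20 * ((D : ℝ) + 1) * (M + 1)) * (lam r 0 v + lam r (0 + 1) v) ≤
          (20 * (D + 1) ^ 2 * (M + 1) ^ 2) * (2 * Real.logb 2 (Fintype.card V)) := by
        have : lam r 0 v + lam r (0 + 1) v ≤ 2 * Real.logb 2 (Fintype.card V) := by
          simpa [two_mul] using add_le_add h4 h5
        calc _ ≤ (20 * ((D : ℝ) + 1) * (M + 1)) * (2 * Real.logb 2 (Fintype.card V)) :=
              mul_le_mul_of_nonneg_left this h11
          _ ≤ _ := mul_le_mul_of_nonneg_right h6 (by positivity)
      nlinarith [mul_nonneg h9 hL0, mul_nonneg h9 hl]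
    · have : (([false] : List Bool).length : ℝ) = 1 := by simp
      rw [this]
      nlinarith
  · intro u v
    by_cases hu : Spl G r 0 u (r 0 u)
    · by_cases hv : Spl G r 0 v (r 0 v)
      · have hu' : Spl G r 0 u (r 0 v) := by rw [h.h0 v u]; exact hu
        have hv' : Spl G r 0 v (r 0 u) := by rw [h.h0 u v]; exact hv
        have key := dec_iff h hg L 0 u v (by simp) hu' hv'
        rw [h.h0 v u] at key
        have e : r 0 v = r 0 u := h.h0 v u
        simp only [hu, hv, if_true, Dec, List.cons.injEq, true_and]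
        rw [← key]
        constructor
        · intro hd
          exact ⟨_, _, rfl, rfl, by rw [e]; exact hd⟩
        · rintro ⟨t, t', ht, ht', hd⟩
          have e1 := (encLab_pinj L).inj ht
          have e2 := (encLab_pinj L).inj ht'
          subst e1; subst e2
          rw [e] at hd; exact hd
      · simp only [hu, hv, if_true, if_false, Dec]
        constructor
        · intro ha
          exact absurd (by have := hspl v u ha.symm; rwa [h.h0 u v] at this) hv
        · rintro ⟨t, t', _, h2, _⟩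
          simp at h2
    · simp only [hu, if_false, Dec]
      constructor
      · intro ha
        exact absurd (by have := hspl u v ha; rwa [h.h0 v u] at this) hu
      · rintro ⟨t, t', h1, _, _⟩
        simp at h1

end Pool.Agent.ILab
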