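import Mathlib
import Pool.Agent.ILab.LabB
import Pool.Agent.ILab.Chain
import Pool.Agent.Hhelper71.Small.FinalLin

/-! # Logarithmic labels for small hereditary classes, one decoder, distinct labels of one length -/

set_option autoImplicit false

namespace Pool.Agent.ILab

open Classical Finset

lemma eNat_len (n : ℕ) : (eNat n).length = 2 * n.size + 1 := by
  rw [eNat, eList_length, ← Nat.size_eq_bits_len]
  simp [eBool, mul_comm]

lemma eBools_len (l : List Bool) : (eList eBool l).length = 2 * l.length + 1 := by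
  rw [eList_length]
  simp [eBool, mul_comm]

/-- the encoding of (number of levels, name of the vertex, label) -/
def eFull : ℕ × ℕ × List Bool → List Bool := eProd eNat (eProd eNat (eList eBool))

lemma eFull_pinj : PInj eFull := eProd_pinj eNat_pinj (eProd_pinj eNat_pinj (eList_pinj eBool_pinj))

/-- the decoder, independent of the number of vertices -/
def DecAll (l l' : List Bool) : Prop :=
  ∃ x x' : ℕ × ℕ × List Bool, ∃ s s' : List Bool,
    l = eFull x ++ s ∧ l' = eFull x' ++ s' ∧ Dec x.1 x.2.2 x'.2.2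

theorem log_labels (C : (n : ℕ) → Set (SimpleGraph (Fin n)))
    (hered : ∀ (n m : ℕ) (e : Fin m ↪ Fin n) (G : SimpleGraph (Fin n)),
      G ∈ C n → G.comap ⇑e ∈ C m)
    (small : ∃ c : ℕ, ∀ n : ℕ, (C n).ncard ≤ n.factorial * c ^ n) :
    ∃ K : ℕ, ∀ (n : ℕ), ∀ G ∈ C n,
      ∃ ℓ : Fin n → List Bool, Function.Injective ℓ ∧
        (∀ v, (ℓ v).length = K * (Nat.log 2 n + 1)) ∧
        ∀ u v, G.Adj u v ↔ DecAll (ℓ u) (ℓ v) := by
  obtain ⟨R, hR⟩ := Pool.Agent.Hhelper71.Small.traces_linear C hered small
  set D := 84 * (R + 1) ^ 2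
  set M := 4 * (42 * (R + 1) ^ 2) ^ 2
  refine ⟨6 * KB D M + 7, fun n G hG => ?_⟩
  set L := Nat.log 2 n + 1 with hL
  rcases Nat.eq_zero_or_pos n with h0 | h0
  · subst h0
    exact ⟨fun v => v.elim0, fun v => v.elim0, fun v => v.elim0, fun v => v.elim0⟩
  have hlin : ∀ X : Finset (Fin n),
      (Set.range fun v => G.neighborSet v ∩ (X : Set (Fin n))).ncard ≤ (R + 1) * (X.card + 1) := by
    intro X
    rcases X.eq_empty_or_nonempty with hX | hX
    · subst hX
      have : (Set.range fun v => G.neighborSet v ∩ ((∅ : Finset (Fin n)) : Set (Fin n))) ⊆ {∅} := by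
        rintro _ ⟨v, rfl⟩
        simp
      calc _ ≤ ({∅} : Set (Set (Fin n))).ncard := Set.ncard_le_ncard this (Set.finite_singleton _)
        _ = 1 := Set.ncard_singleton _
        _ ≤ _ := by simp
    · calc _ ≤ R * X.card := hR n G hG X hX
        _ ≤ (R + 1) * (X.card + 1) := Nat.mul_le_mul (Nat.le_succ _) (Nat.le_succ _)
  have hn : Fintype.card (Fin n) ≤ (7 * (R + 1)) ^ L := by
    rw [Fintype.card_fin]
    calc n ≤ 2 ^ L := (Nat.lt_pow_succ_log_self (by norm_num) n).le
      _ ≤ (7 * (R + 1)) ^ L := Nat.pow_le_pow_left (by omega) _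
  obtain ⟨r, h1, h2, h3, h4, h5, h6, h7⟩ :=
    exists_chain (R + 1) (by omega) G hlin L (by omega) hn
  have hchain : Chain G r L D M := ⟨h1, h2, h3, h4, h5, h6, h7⟩
  obtain ⟨lab, hlen, hadj⟩ := labels_of_chain hchain
  have hlen2 : ∀ v, (lab v).length ≤ KB D M * (3 * L) := by
    intro v
    have h8 := hlen v
    rw [Fintype.card_fin] at h8
    have h9 : Real.logb 2 n ≤ L := by
      rw [Real.logb_le_iff_le_rpow (by norm_num) (by exact_mod_cast h0), Real.rpow_natCast]
      have := (Nat.lt_pow_succ_log_self (b := 2) (by norm_num) n).le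
      exact_mod_cast this
    have h10 : (1 : ℝ) ≤ L := by
      rw [hL]; push_cast; linarith [Nat.cast_nonneg (α := ℝ) (Nat.log 2 n)]
    have h11 : (0 : ℝ) ≤ KB D M := Nat.cast_nonneg _
    have : ((lab v).length : ℝ) ≤ KB D M * (3 * L) := by
      refine h8.trans (mul_le_mul_of_nonneg_left ?_ h11)
      linarith
    exact_mod_cast this
  have hfl : ∀ v : Fin n, (eFull (L, v.val, lab v)).length ≤ (6 * KB D M + 7) * L := by
    intro v
    have e1 : (eFull (L, v.val, lab v)).length =
        (2 * L.size + 1) + ((2 * v.val.size + 1) + (2 * (lab v).length + 1)) := by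
      simp [eFull, eProd, eNat_len, eBools_len]
    have e2 : L.size ≤ L := Nat.size_le.2 Nat.lt_two_pow_self
    have e3 : v.val.size ≤ L := by
      apply Nat.size_le.2
      exact lt_of_lt_of_le v.isLt (Nat.lt_pow_succ_log_self (by norm_num) n).le
    have e4 := hlen2 v
    have e5 : 1 ≤ L := by omega
    rw [e1]
    nlinarith
  refine ⟨fun v => eFull (L, v.val, lab v) ++
    List.replicate ((6 * KB D M + 7) * L - (eFull (L, v.val, lab v)).length) false, ?_, ?_, ?_⟩
  · intro u v huv
    have := (eFull_pinj _ _ _ _ huv).1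
    simp only [Prod.mk.injEq] at this
    exact Fin.ext this.2.1
  · intro v
    rw [List.length_append, List.length_replicate]
    have := hfl v
    omega
  · intro u v
    rw [hadj u v]
    constructor
    · intro hd
      exact ⟨_, _, _, _, rfl, rfl, hd⟩
    · rintro ⟨x, x', s, s', e1, e2, hd⟩
      have a1 := (eFull_pinj _ _ _ _ e1).1
      have a2 := (eFull_pinj _ _ _ _ e2).1
      subst a1; subst a2
      exact hd

end Pool.Agent.ILab
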