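import Mathlib

/-! # From labels of one length to universal graphs -/

set_option autoImplicit false

namespace Pool.Agent.ILab

lemma two_pow_le (n K : ℕ) (hn : 2 ≤ n) : 2 ^ (K * (Nat.log 2 n + 1)) ≤ n ^ (2 * K) := by
  have h1 : 2 ^ Nat.log 2 n ≤ n := Nat.pow_log_le_self 2 (by omega)
  calc 2 ^ (K * (Nat.log 2 n + 1)) = (2 ^ Nat.log 2 n * 2) ^ K := by
        rw [← pow_succ, ← pow_mul, mul_comm]
    _ ≤ (n * n) ^ K := Nat.pow_le_pow_left (Nat.mul_le_mul h1 hn) _
    _ = n ^ (2 * K) := by rw [← pow_two, ← pow_mul]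

/-- A labelling scheme with distinct labels of length `K * (log2 n + 1)` gives, for every `n ≥ 2`, a
graph with `n ^ (2 * K)` vertices which contains every graph of the class on `n` vertices as an induced
subgraph. -/
theorem universal_of_labels (C : (n : ℕ) → Set (SimpleGraph (Fin n))) (K : ℕ)
    (D : List Bool → List Bool → Prop)
    (h : ∀ (n : ℕ), ∀ G ∈ C n,
      ∃ ℓ : Fin n → List Bool, Function.Injective ℓ ∧
        (∀ v, (ℓ v).length = K * (Nat.log 2 n + 1)) ∧
        ∀ u v, G.Adj u v ↔ D (ℓ u) (ℓ v)) (n : ℕ) (hn : 2 ≤ n) :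
    ∃ U : SimpleGraph (Fin (n ^ (2 * K))), ∀ G ∈ C n, Nonempty (G ↪g U) := by
  have hcard : Fintype.card (List.Vector Bool (K * (Nat.log 2 n + 1))) ≤
      Fintype.card (Fin (n ^ (2 * K))) := by
    rw [card_vector, Fintype.card_bool, Fintype.card_fin]
    exact two_pow_le n K hn
  obtain ⟨φ⟩ := Function.Embedding.nonempty_of_card_le hcard
  refine ⟨{ Adj := fun i j => i ≠ j ∧ ∃ l l' : List.Vector Bool (K * (Nat.log 2 n + 1)),
              φ l = i ∧ φ l' = j ∧ D l.1 l'.1 ∧ D l'.1 l.1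
            symm := ⟨fun i j => by
              rintro ⟨h1, l, l', h2, h3, h4, h5⟩
              exact ⟨h1.symm, l', l, h3, h2, h5, h4⟩⟩
            loopless := ⟨fun i hi => hi.1 rfl⟩ }, ?_⟩
  intro G hG
  obtain ⟨ℓ, hinj, hlen, hadj⟩ := h n G hG
  refine ⟨⟨⟨fun v => φ ⟨ℓ v, hlen v⟩, ?_⟩, ?_⟩⟩
  · intro u v huv
    have := φ.injective huv
    exact hinj (congrArg Subtype.val this)
  · intro u v
    constructor
    · rintro ⟨_, l, l', h2, h3, h4, _⟩
      have e1 := φ.injective h2
      have e2 := φ.injective h3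
      subst e1; subst e2
      exact (hadj u v).2 h4
    · intro huv
      refine ⟨?_, _, _, rfl, rfl, (hadj u v).1 huv, (hadj v u).1 huv.symm⟩
      intro he
      have := hinj (congrArg Subtype.val (φ.injective he))
      exact G.ne_of_adj huv this

end Pool.Agent.ILab
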